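import Pool.Agent.helper81.FZ.Cont

/-!
# The continuants are characteristic polynomials of tridiagonal matrices (MP_1b8d20_an)
-/

set_option autoImplicit false

namespace Pool.Agent.FZR

noncomputable section

/-- The `n × n` tridiagonal matrix with zero diagonal, ones on the superdiagonal and the entries
`k 0, k 1, …, k (n-2)` on the subdiagonal. -/
def hopMatrix (n : ℕ) (k : ℕ → ℂ) : Matrix (Fin n) (Fin n) ℂ :=
  Matrix.of fun i j => if (j : ℕ) = i + 1 then 1 else if (i : ℕ) = j + 1 then k j else 0

/-- The polynomial `λ ↦ λ * det (λ - hopMatrix n k)`. -/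
def renPoly (n : ℕ) (k : ℕ → ℂ) : Polynomial ℂ := Polynomial.X * (hopMatrix n k).charpoly

/-- `w - hopMatrix n k` -/
def tri (w : ℂ) (n : ℕ) (k : ℕ → ℂ) : Matrix (Fin n) (Fin n) ℂ :=
  Matrix.of fun i j => if (i : ℕ) = j then w else if (j : ℕ) = i + 1 then -1 else
    if (i : ℕ) = j + 1 then -k j else 0

theorem tri_eq (w : ℂ) (n : ℕ) (k : ℕ → ℂ) :
    Matrix.scalar (Fin n) w - hopMatrix n k = tri w n k := by
  ext i j
  simp only [Matrix.sub_apply, Matrix.scalar_apply, Matrix.diagonal_apply, hopMatrix, tri,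
    Matrix.of_apply, Fin.ext_iff]
  split_ifs <;> first | omega | simp

theorem tri_succ (w : ℂ) (n : ℕ) (k : ℕ → ℂ) :
    (tri w (n + 1) k).submatrix Fin.succ Fin.succ = tri w n (fun i => k (i + 1)) := by
  ext i j
  simp only [Matrix.submatrix_apply, tri, Matrix.of_apply, Fin.val_succ, add_left_inj]

theorem det_tri_add (w : ℂ) (n : ℕ) (k : ℕ → ℂ) : (tri w (n + 2) k).det =
    w * (tri w (n + 1) (fun i => k (i + 1))).det - k 0 * (tri w n (fun i => k (i + 2))).det := by
  have hB : ((tri w (n + 2) k).submatrix Fin.succ (Fin.succAbove (Fin.succ 0))).det =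
      -k 0 * (tri w n (fun i => k (i + 2))).det := by
    rw [Matrix.det_succ_column_zero, Fin.sum_univ_succ]
    have h1 : ∀ i : Fin n, (tri w (n + 2) k).submatrix Fin.succ (Fin.succAbove (Fin.succ 0))
        i.succ 0 = 0 := by
      intro i
      simp only [Matrix.submatrix_apply, Fin.succ_succAbove_zero, tri, Matrix.of_apply,
        Fin.val_succ, Fin.val_zero]
      split_ifs <;> first | contradiction | omega | rfl
    have h2 : (tri w (n + 2) k).submatrix Fin.succ (Fin.succAbove (Fin.succ 0)) 0 0 = -k 0 := by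
      simp only [Matrix.submatrix_apply, Fin.succ_succAbove_zero, tri, Matrix.of_apply,
        Fin.val_succ, Fin.val_zero]
      split_ifs <;> first | contradiction | omega | rfl
    have h3 : ((tri w (n + 2) k).submatrix Fin.succ (Fin.succAbove (Fin.succ 0))).submatrix
        (Fin.succAbove 0) Fin.succ = tri w n (fun i => k (i + 2)) := by
      ext i j
      simp only [Matrix.submatrix_apply, Fin.succAbove_zero, Fin.succ_succAbove_succ, tri,
        Matrix.of_apply, Fin.val_succ, add_left_inj]
    rw [h2, h3, Fin.val_zero, pow_zero, one_mul]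
    rw [Finset.sum_eq_zero fun i _ => by rw [h1 i, mul_zero, zero_mul], add_zero]
  rw [Matrix.det_succ_row_zero, Fin.sum_univ_succ, Fin.sum_univ_succ]
  have h4 : ∀ j : Fin n, tri w (n + 2) k 0 j.succ.succ = 0 := by
    intro j
    simp only [tri, Matrix.of_apply, Fin.val_succ, Fin.val_zero]
    split_ifs <;> first | contradiction | omega | rfl
  have h5 : tri w (n + 2) k 0 0 = w := by
    simp only [tri, Matrix.of_apply, if_true]
  have h6 : tri w (n + 2) k 0 (Fin.succ 0) = -1 := by
    simp only [tri, Matrix.of_apply, Fin.val_succ, Fin.val_zero]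
    split_ifs <;> first | contradiction | omega | rfl
  have h7 : (tri w (n + 2) k).submatrix Fin.succ (Fin.succAbove 0) =
      tri w (n + 1) (fun i => k (i + 1)) := by
    rw [Fin.succAbove_zero]
    exact tri_succ w (n + 1) k
  rw [h5, h6, h7, hB]
  rw [Finset.sum_eq_zero fun j _ => by rw [h4 j, mul_zero, zero_mul]]
  simp only [Fin.val_zero, Fin.val_succ, pow_zero, zero_add, pow_one]
  ring

theorem det_tri (w : ℂ) : ∀ (n : ℕ) (k : ℕ → ℂ), (tri w n k).det = K w k n
  | 0, k => by rw [Matrix.det_isEmpty, K_zero]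
  | 1, k => by
    rw [Matrix.det_unique, K_one]
    simp [tri]
  | n + 2, k => by
    rw [det_tri_add, K_front, det_tri w (n + 1), det_tri w n]

theorem eval_charpoly (w : ℂ) (n : ℕ) (k : ℕ → ℂ) :
    (hopMatrix n k).charpoly.eval w = K w k n := by
  rw [Matrix.eval_charpoly, tri_eq, det_tri]

theorem eval_renPoly (w : ℂ) (n : ℕ) (k : ℕ → ℂ) : (renPoly n k).eval w = w * K w k n := by
  rw [renPoly, Polynomial.eval_mul, Polynomial.eval_X, eval_charpoly]

end

end Pool.Agent.FZR
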