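import Pool.Agent.helper81.FZ.Nest2
import Pool.Agent.helper81.FZ.Tri

/-!
# Bounded orbits of renormalisation polynomials (MP_1b8d20_an)
-/

set_option autoImplicit false

namespace Pool.Agent.FZR

open Pool.Agent.FZ

theorem bounded_orbits : ∀ (n : ℕ → ℕ) (k : ℕ → ℕ → ℂ) (R : ℝ) (x : ℕ → ℂ),
    (∀ m, 1 ≤ n m) → (∀ ε : ℝ, 0 < ε → ∃ M : ℕ, 0 < M ∧ ∀ m, m < M → (n m : ℝ) ≤ ε * √M) →
    (∀ m i, k m i = 1 ∨ k m i = -1) → (∀ m, x (m + 1) = (renPoly (n m) (k m)).eval (x m)) →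
    (∀ m, ‖x m‖ ≤ R) → x 0 ∈ interior periodicPart := by
  intro n k R x hn hl hk hx hR
  apply interior_mono closure_sub
  refine bounded_orbit2 (Λ := x) (l := fun m => n m - 1) hk (fun m => ?_) (fun ε hε => ?_) hR
  · rw [hx m, eval_renPoly, Nat.sub_add_cancel (hn m)]
  · obtain ⟨M, hM, h⟩ := hl ε hε
    refine ⟨M, hM, fun m hm => ?_⟩
    rw [Nat.sub_add_cancel (hn m)]
    exact h m hm

end Pool.Agent.FZR
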