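import Pool.Agent.helper81.FZ.Nest2
import Pool.Agent.helper81.FZ.Tri

/-!
# Spectra of periodic operators and the invariance of the periodic part (MP_1b8d20_an)
-/

set_option autoImplicit false
set_option maxHeartbeats 4000000

noncomputable section

namespace Pool.Agent.FZR

open Pool.Agent.FZ

/-- compactness, for periodic sign sequences (compare `Pool.Agent.FZ.bs_of_windows`) -/
theorem bp_of_windows (l : ℂ) (p : ℕ) (h : ∀ N : ℕ, ∃ c φ : ℤ → ℂ,
    (∀ m, c m = 1 ∨ c m = -1) ∧ (∀ m : ℤ, c (m + (p : ℤ)) = c m) ∧ φ 0 = 1 ∧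
    (∀ m : ℤ, |m| ≤ (N : ℤ) → ‖φ m‖ ≤ 2) ∧
    ∀ m : ℤ, |m| + 1 ≤ (N : ℤ) → ‖φ (m + 1) + c m * φ (m - 1) - l * φ m‖ ≤ 1 / ((N : ℝ) + 1)) :
    ∃ c φ : ℤ → ℂ, (∀ m, c m = 1 ∨ c m = -1) ∧ (∀ m : ℤ, c (m + (p : ℤ)) = c m) ∧
      (∀ m, φ (m + 1) + c m * φ (m - 1) = l * φ m) ∧ φ 0 = 1 ∧ ∀ m, ‖φ m‖ ≤ 2 := by
  classical
  let K : Set ((ℤ → ℂ) × (ℤ → ℂ)) :=
    (Set.univ.pi (fun _ : ℤ => ({1, -1} : Set ℂ))) ×ˢ
      (Set.univ.pi (fun _ : ℤ => Metric.closedBall (0 : ℂ) 2))
  have hK : IsCompact K := by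
    apply IsCompact.prod
    · exact isCompact_univ_pi (fun _ => (Set.toFinite _).isCompact)
    · exact isCompact_univ_pi (fun _ => isCompact_closedBall _ _)
  let P : Set ((ℤ → ℂ) × (ℤ → ℂ)) := ⋂ m : ℤ, {q | q.1 (m + (p : ℤ)) = q.1 m}
  have hP : IsClosed P := isClosed_iInter fun m => isClosed_eq (by fun_prop) (by fun_prop)
  let F : ℕ → Set ((ℤ → ℂ) × (ℤ → ℂ)) := fun N =>
    K ∩ (({p | p.2 0 = 1} ∩ P) ∩ ⋂ m : ℤ, ⋂ (_ : |m| + 1 ≤ (N : ℤ)),
      {p | ‖p.2 (m + 1) + p.1 m * p.2 (m - 1) - l * p.2 m‖ ≤ 1 / ((N : ℝ) + 1)})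
  have hFcl : ∀ N, IsClosed (F N) := by
    intro N
    refine hK.isClosed.inter (IsClosed.inter (IsClosed.inter ?_ hP) ?_)
    · exact isClosed_eq (by fun_prop) continuous_const
    · refine isClosed_iInter fun m => isClosed_iInter fun _ => ?_
      exact isClosed_le (by fun_prop) continuous_const
  have hFne : ∀ N, (F N).Nonempty := by
    intro N
    obtain ⟨c, φ, hc, hper, h0, hb, hr⟩ := h N
    refine ⟨(c, fun m => if |m| ≤ (N : ℤ) then φ m else 0), ⟨⟨?_, ?_⟩, ⟨?_, ?_⟩, ?_⟩⟩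
    · intro m _
      rcases hc m with h1 | h1 <;> simp [h1]
    · intro m _
      simp only
      split_ifs with hm
      · simpa using hb m hm
      · simp
    · have : |(0 : ℤ)| ≤ (N : ℤ) := by simp
      show (if |(0 : ℤ)| ≤ (N : ℤ) then φ 0 else 0) = 1
      rw [if_pos this, h0]
    · exact Set.mem_iInter.2 fun m => hper m
    · simp only [Set.mem_iInter]
      intro m hm
      have h1 : |m + 1| ≤ (N : ℤ) := by
        have := abs_add_le m 1
        simp only [abs_one] at this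
        omega
      have h2 : |m - 1| ≤ (N : ℤ) := by
        have := abs_sub m 1
        simp only [abs_one] at this
        omega
      have h3 : |m| ≤ (N : ℤ) := by omega
      show ‖(if |m + 1| ≤ (N : ℤ) then φ (m + 1) else 0) + c m * (if |m - 1| ≤ (N : ℤ) then
        φ (m - 1) else 0) - l * (if |m| ≤ (N : ℤ) then φ m else 0)‖ ≤ 1 / ((N : ℝ) + 1)
      rw [if_pos h1, if_pos h2, if_pos h3]
      exact hr m hm
  have hFmono : ∀ N, F (N + 1) ⊆ F N := by
    rintro N p ⟨hp1, hp2, hp3⟩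
    refine ⟨hp1, hp2, ?_⟩
    simp only [Set.mem_iInter] at hp3 ⊢
    intro m hm
    have h1 : ‖p.2 (m + 1) + p.1 m * p.2 (m - 1) - l * p.2 m‖ ≤ 1 / (((N + 1 : ℕ) : ℝ) + 1) :=
      hp3 m (by push_cast; omega)
    refine le_trans h1 ?_
    apply one_div_le_one_div_of_le (by positivity)
    push_cast
    linarith
  have hF0 : IsCompact (F 0) := by
    have h1 : F 0 = K ∩ F 0 := by
      ext x
      exact ⟨fun hx => ⟨hx.1, hx⟩, fun hx => hx.2⟩
    rw [h1]
    exact hK.inter_right (hFcl 0)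
  obtain ⟨⟨c, φ⟩, hp⟩ :=
    IsCompact.nonempty_iInter_of_sequence_nonempty_isCompact_isClosed F hFmono hFne hF0 hFcl
  simp only [Set.mem_iInter] at hp
  obtain ⟨⟨hc, hφ⟩, ⟨h0, hper⟩, _⟩ := hp 0
  refine ⟨c, φ, ?_, fun m => Set.mem_iInter.1 hper m, ?_, h0, ?_⟩
  · intro m
    have := hc m (Set.mem_univ _)
    simpa using this
  · intro m
    have hle : ∀ N : ℕ, |m| + 1 ≤ (N : ℤ) →
        ‖φ (m + 1) + c m * φ (m - 1) - l * φ m‖ ≤ 1 / ((N : ℝ) + 1) := by
      intro N hN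
      have := (hp N).2.2
      simp only [Set.mem_iInter] at this
      exact this m hN
    have hz : ‖φ (m + 1) + c m * φ (m - 1) - l * φ m‖ ≤ 0 := by
      apply ge_of_tendsto tendsto_one_div_add_atTop_nhds_zero_nat
      filter_upwards [Filter.eventually_ge_atTop (m.natAbs + 1)] with N hN
      exact hle N (by have := Int.abs_eq_natAbs m; omega)
    exact sub_eq_zero.mp (norm_le_zero_iff.mp hz)
  · intro m
    have := hφ m (Set.mem_univ _)
    simpa using this

/-- points of the spectrum of a periodic operator have bounded solutions for a periodic sign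
sequence -/
theorem BP_of_spec {l : ℂ} (h : l ∈ {z : ℂ | ∃ c : ℤ → ℂ, IsSignSeq c ∧ IsPer c ∧ z ∈ hopSpec c}) :
    BP l := by
  obtain ⟨c, hc, ⟨p, hp, hper⟩, T, hT, hl⟩ := h
  obtain ⟨c', φ, h1, h2, h3, h4, h5⟩ := bp_of_windows l p (fun N => by
    obtain ⟨ε, hε, hwin⟩ := window N (δ := 1 / ((N : ℝ) + 1)) (by positivity)
    obtain ⟨x, hx0, hx⟩ := exists_approx hc (fun x n => hT x n) hl hε
    obtain ⟨m, hm0, hm⟩ := hwin x hx0 _ hx
    have hpos : 0 < ‖x m‖ := norm_pos_iff.mpr hm0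
    refine ⟨fun j => c (m + j), fun j => x (m + j) / x m, fun j => hc _, fun j => ?_, ?_, ?_, ?_⟩
    · show c (m + (j + p)) = c (m + j)
      rw [← add_assoc, hper]
    · simp only [add_zero]
      exact div_self hm0
    · intro j hj
      have h1 := (hm j hj).1
      rw [norm_div, div_le_iff₀ hpos]
      exact h1
    · intro j hj
      have h1 := (hm j (by omega)).2
      have hT' : ∀ n : ℤ, (T x) n = x (n + 1) + c n * x (n - 1) := fun n => hT x n
      rw [res_apply, hT'] at h1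
      have e : x (m + (j + 1)) / x m + c (m + j) * (x (m + (j - 1)) / x m) - l * (x (m + j) / x m) =
          -(l * x (m + j) - (x (m + j + 1) + c (m + j) * x (m + j - 1))) / x m := by
        have e1 : m + (j + 1) = m + j + 1 := by ring
        have e2 : m + (j - 1) = m + j - 1 := by ring
        rw [e1, e2]
        field_simp
        ring
      rw [e, norm_div, norm_neg, div_le_iff₀ hpos]
      exact h1)
  refine ⟨c', h1, ⟨p, hp, h2⟩, φ, fun i => ?_, ⟨2, h5⟩, 0, by rw [h4]; exact one_ne_zero⟩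
  rw [smul_eq_mul, smul_eq_mul, ← h3 i]
  ring

theorem periodicPart_eq : periodicPart = closure BPs := by
  apply Set.Subset.antisymm _ closure_sub
  apply closure_minimal _ isClosed_closure
  intro w hw
  have h := BP_of_spec hw
  rcases eq_or_ne w 0 with rfl | h0
  · exact disc_sub (by simp)
  · exact subset_closure ⟨h0, h⟩

/-- THEOREM: inverse images of the periodic part -/
theorem inverse_images (n : ℕ) (k : ℕ → ℂ) (hk : ∀ i, k i = 1 ∨ k i = -1) (z : ℂ)
    (hz : (renPoly n k).eval z ∈ periodicPart) : z ∈ periodicPart := by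
  rw [eval_renPoly] at hz
  rw [periodicPart_eq] at hz ⊢
  exact open_pull hk n hz

theorem inverse_images_interior (n : ℕ) (k : ℕ → ℂ) (hk : ∀ i, k i = 1 ∨ k i = -1) (z : ℂ)
    (hz : (renPoly n k).eval z ∈ interior periodicPart) : z ∈ interior periodicPart := by
  rw [eval_renPoly] at hz
  rw [periodicPart_eq] at hz ⊢
  by_contra h
  exact not_mem_step h n k hk hz

end Pool.Agent.FZR
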