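import Pool.Agent.helper30.FZ.Cocycle
import Pool.Agent.helper81.FZ.SpecBP

/-!
# Growth of the transfer matrices outside the interior of the periodic part (MP_1b8d20_an)
-/

set_option autoImplicit false

noncomputable section

namespace Pool.Agent.FZR

open Pool.Agent.FZ

/-- separated directions in one chart -/
theorem chart {ι : Type*} (s : Finset ι) (a b : ι → ℂ) (Q r : ℝ) (hQ : 1 ≤ Q) (hr : 1 ≤ r)
    (hab : ∀ i ∈ s, ‖a i‖ ≤ ‖b i‖) (hb0 : ∀ i ∈ s, b i ≠ 0) (hb : ∀ i ∈ s, ‖b i‖ ≤ Q)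
    (hsep : ∀ i ∈ s, ∀ j ∈ s, i ≠ j → 1 ≤ r * ‖a i * b j - b i * a j‖) :
    (s.card : ℝ) ≤ 9 * r ^ 2 * Q ^ 4 := by
  have hδ : (0 : ℝ) < 1 / (r * Q ^ 2) := by positivity
  have h := pack2 s (fun i => a i / b i) 1 (1 / (r * Q ^ 2)) hδ zero_le_one (fun i hi => by
    rw [norm_div]
    exact div_le_one_of_le₀ (hab i hi) (norm_nonneg _)) (fun i hi j hj hij => by
    have h1 := hsep i hi j hj hij
    have hbi := hb0 i hi
    have hbj := hb0 j hj
    have e : a i / b i - a j / b j = (a i * b j - b i * a j) / (b i * b j) := by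
      field_simp
    rw [e, norm_div, norm_mul (b i), div_le_div_iff₀ (by positivity)
      (mul_pos (norm_pos_iff.2 hbi) (norm_pos_iff.2 hbj)), one_mul]
    have h2 : ‖b i‖ * ‖b j‖ ≤ Q * Q := mul_le_mul (hb i hi) (hb j hj) (norm_nonneg _) (by linarith)
    have h3 : (0 : ℝ) ≤ Q ^ 2 := by positivity
    calc ‖b i‖ * ‖b j‖ ≤ 1 * Q ^ 2 := by linarith
      _ ≤ (r * ‖a i * b j - b i * a j‖) * Q ^ 2 := mul_le_mul_of_nonneg_right h1 h3
      _ = ‖a i * b j - b i * a j‖ * (r * Q ^ 2) := by ring)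
  have hrQ : 1 ≤ r * Q ^ 2 := by
    have : 1 ≤ Q ^ 2 := one_le_pow₀ hQ
    nlinarith
  have e2 : (2 * 1 + 1 / (r * Q ^ 2)) ^ 2 = (2 * (r * Q ^ 2) + 1) ^ 2 * (1 / (r * Q ^ 2)) ^ 2 := by
    field_simp
  rw [e2] at h
  have h2 := le_of_mul_le_mul_right h (by positivity)
  refine h2.trans ?_
  have h3 : (2 * (r * Q ^ 2) + 1) ^ 2 ≤ (3 * (r * Q ^ 2)) ^ 2 :=
    pow_le_pow_left₀ (by positivity) (by linarith) 2
  calc (2 * (r * Q ^ 2) + 1) ^ 2 ≤ (3 * (r * Q ^ 2)) ^ 2 := h3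
    _ = 9 * r ^ 2 * Q ^ 4 := by ring

theorem growth {z : ℂ} (hz : z ∉ interior periodicPart) (c : ℕ → ℂ)
    (hc : ∀ i, c i = 1 ∨ c i = -1) (Q : ℝ) (hQ : 1 ≤ Q) (F : Finset ℕ)
    (hF : ∀ n ∈ F, ∀ i j, ‖mat c z n i j‖ ≤ Q) : (F.card : ℝ) ≤ 18 * ‖z‖ ^ 2 * Q ^ 4 := by
  classical
  rw [periodicPart_eq] at hz
  have hS : ∀ (n : ℕ) (q : ℕ → ℂ), (∀ i, q i = 1 ∨ q i = -1) → 1 ≤ ‖z * K z q n‖ :=
    fun n q hq => large hz n q hq
  have hz1 : 1 ≤ ‖z‖ := by
    have := hS 0 (fun _ => 1) (fun _ => Or.inl rfl)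
    rwa [K_zero, mul_one] at this
  -- a path through the rows of the transfer matrices
  obtain ⟨c', hc'⟩ : ∃ c' : ℤ → ℂ, c' = fun i => c (i - 1).toNat := ⟨_, rfl⟩
  have hc's : ∀ i, c' i = 1 ∨ c' i = -1 := fun i => by rw [hc']; exact hc _
  obtain ⟨u, hu, hu0, hu1⟩ := exists_path z c' hc's ((1, 0) : ℂ × ℂ) (0, 1)
  -- rows: row 0 of `mat c z n` in the basis `(u 1, u 0)`
  have hrow : ∀ n : ℕ, (u ((n : ℤ) + 1) = (mat c z n 0 1, mat c z n 0 0)) ∧
      (u (n : ℤ) = (mat c z n 1 1, mat c z n 1 0)) := by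
    intro n
    induction n with
    | zero =>
      simp [mat, hu0, hu1]
    | succ n ih =>
      have h1 := hu ((n : ℤ) + 1)
      rw [add_sub_cancel_right, ih.1, ih.2] at h1
      have hcn : c' ((n : ℤ) + 1) = c n := by
        rw [hc']
        show c ((n : ℤ) + 1 - 1).toNat = c n
        rw [add_sub_cancel_right, Int.toNat_natCast]
      rw [hcn] at h1
      push_cast
      rw [h1, ih.1]
      simp only [mat, step, Matrix.mul_apply, Fin.sum_univ_two]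
      constructor
      · ext <;> simp [sub_eq_add_neg]
      · ext <;> simp
  have hsep : ∀ i j : ℕ, i ≠ j → 1 ≤ ‖z‖ * ‖mat c z i 0 1 * mat c z j 0 0 -
      mat c z i 0 0 * mat c z j 0 1‖ := by
    have key : ∀ i j : ℕ, i < j → 1 ≤ ‖z‖ * ‖mat c z i 0 1 * mat c z j 0 0 -
        mat c z i 0 0 * mat c z j 0 1‖ := by
      intro i j hij
      have h := sep hS hc's hu hu0 hu1 (i + 1) (j + 1) (by omega)
      push_cast at h
      rw [(hrow i).1, (hrow j).1, norm_mul] at h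
      exact h
    intro i j hij
    rcases lt_or_gt_of_ne hij with h | h
    · exact key i j h
    · have h2 := key j i h
      rw [norm_sub_rev, mul_comm (mat c z j 0 0), mul_comm (mat c z j 0 1)] at h2
      exact h2
  have hne : ∀ i : ℕ, ¬ (mat c z i 0 1 = 0 ∧ mat c z i 0 0 = 0) := by
    rintro i ⟨h1, h2⟩
    have h3 := hsep i (i + 1) (by omega)
    rw [h1, h2, zero_mul, zero_mul, sub_zero, norm_zero, mul_zero] at h3
    linarith
  have hA := chart (F.filter fun i => ‖mat c z i 0 1‖ ≤ ‖mat c z i 0 0‖) (fun i => mat c z i 0 1)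
    (fun i => mat c z i 0 0) Q ‖z‖ hQ hz1 (fun i hi => (Finset.mem_filter.1 hi).2)
    (fun i hi h0 => by
      have h1 := (Finset.mem_filter.1 hi).2
      rw [h0, norm_zero] at h1
      exact hne i ⟨norm_le_zero_iff.1 h1, h0⟩)
    (fun i hi => hF i (Finset.mem_filter.1 hi).1 0 0) (fun i _ j _ hij => hsep i j hij)
  have hB := chart (F.filter fun i => ¬ ‖mat c z i 0 1‖ ≤ ‖mat c z i 0 0‖)
    (fun i => mat c z i 0 0) (fun i => mat c z i 0 1) Q ‖z‖ hQ hz1
    (fun i hi => (not_le.1 (Finset.mem_filter.1 hi).2).le)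
    (fun i hi h0 => by
      have h1 := not_le.1 (Finset.mem_filter.1 hi).2
      rw [h0, norm_zero] at h1
      exact absurd h1 (not_lt.2 (norm_nonneg _)))
    (fun i hi => hF i (Finset.mem_filter.1 hi).1 0 1) (fun i _ j _ hij => by
      have h1 := hsep i j hij
      rw [norm_sub_rev] at h1
      exact h1)
  have hcard := Finset.card_filter_add_card_filter_not (s := F)
    (fun i => ‖mat c z i 0 1‖ ≤ ‖mat c z i 0 0‖)
  have hcard' : ((F.filter fun i => ‖mat c z i 0 1‖ ≤ ‖mat c z i 0 0‖).card : ℝ) +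
      ((F.filter fun i => ¬ ‖mat c z i 0 1‖ ≤ ‖mat c z i 0 0‖).card : ℝ) = (F.card : ℝ) := by
    exact_mod_cast hcard
  linarith

end Pool.Agent.FZR
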