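import Mathlib

/-!
# Continuants of sign words (MP_1b8d20_an)
-/

set_option autoImplicit false

namespace Pool.Agent.FZR

noncomputable section

/-- The continuants: `K 0 = 1`, `K 1 = z`, `K (n+2) = z K (n+1) - k n K n`. -/
def K (z : ℂ) (k : ℕ → ℂ) : ℕ → ℂ
  | 0 => 1
  | 1 => z
  | n + 2 => z * K z k (n + 1) - k n * K z k n

theorem K_zero (z : ℂ) (k : ℕ → ℂ) : K z k 0 = 1 := rfl
theorem K_one (z : ℂ) (k : ℕ → ℂ) : K z k 1 = z := rfl
theorem K_add (z : ℂ) (k : ℕ → ℂ) (n : ℕ) :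
    K z k (n + 2) = z * K z k (n + 1) - k n * K z k n := rfl

theorem K_congr (z : ℂ) (k k' : ℕ → ℂ) : ∀ n : ℕ, (∀ i, i + 1 < n → k i = k' i) →
    K z k n = K z k' n
  | 0, _ => rfl
  | 1, _ => rfl
  | n + 2, h => by
    rw [K_add, K_add, K_congr z k k' (n + 1) (fun i hi => h i (by omega)),
      K_congr z k k' n (fun i hi => h i (by omega)), h n (by omega)]

/-- the recursion at the first letter -/
theorem K_front (z : ℂ) (k : ℕ → ℂ) : ∀ n : ℕ, K z k (n + 2) =
    z * K z (fun i => k (i + 1)) (n + 1) - k 0 * K z (fun i => k (i + 2)) n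
  | 0 => by simp [K_add, K_zero, K_one]
  | 1 => by
    simp only [K_add, K_zero, zero_add, K_one]
    ring
  | n + 2 => by
    have h1 := K_front z k (n + 1)
    have h2 := K_front z k n
    have e1 : K z k (n + 2 + 2) = z * K z k (n + 1 + 2) - k (n + 2) * K z k (n + 2) := rfl
    have e2 : K z (fun i => k (i + 1)) (n + 2 + 1) =
      z * K z (fun i => k (i + 1)) (n + 1 + 1) - k (n + 2) * K z (fun i => k (i + 1)) (n + 1) := rfl
    have e3 : K z (fun i => k (i + 2)) (n + 2) =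
      z * K z (fun i => k (i + 2)) (n + 1) - k (n + 2) * K z (fun i => k (i + 2)) n := rfl
    rw [e1, h1, h2, e2, e3]
    ring

/-- symmetry under reversal of the word -/
theorem K_rev (z : ℂ) : ∀ (n : ℕ) (k : ℕ → ℂ), K z (fun i => k (n - 2 - i)) n = K z k n
  | 0, _ => rfl
  | 1, _ => rfl
  | n + 2, k => by
    have h1 := K_rev z (n + 1) (fun i => k (i + 1))
    have h2 := K_rev z n (fun i => k (i + 2))
    rw [K_front z k n, K_add, ← h1, ← h2]
    have e1 : K z (fun i => k (n + 2 - 2 - i)) (n + 1) =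
        K z (fun i => (fun i => k (i + 1)) (n + 1 - 2 - i)) (n + 1) := by
      apply K_congr
      intro i hi
      show k _ = k _
      congr 1
      omega
    have e2 : K z (fun i => k (n + 2 - 2 - i)) n =
        K z (fun i => (fun i => k (i + 2)) (n - 2 - i)) n := by
      apply K_congr
      intro i hi
      show k _ = k _
      congr 1
      omega
    rw [e1, e2]
    have e3 : n + 2 - 2 - n = 0 := by omega
    rw [e3]

/-- a recursive sequence in terms of its first two terms -/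
theorem path_eq {V : Type*} [AddCommGroup V] [Module ℂ V] (z : ℂ) (d : ℕ → ℂ) (v : ℕ → V)
    (hv : ∀ i, v (i + 2) = z • v (i + 1) - d i • v i) : ∀ n : ℕ,
    v (n + 2) = K z (fun i => d (i + 1)) (n + 1) • v 1
      - (d 0 * K z (fun i => d (i + 2)) n) • v 0
  | 0 => by rw [hv, K_one, K_zero, mul_one]
  | 1 => by
    rw [hv 1, hv 0]
    simp only [K_add, zero_add, K_one, K_zero]
    module
  | n + 2 => by
    have h1 := path_eq z d v hv (n + 1)
    have h2 := path_eq z d v hv n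
    rw [hv (n + 2), h1, h2]
    have e2 : K z (fun i => d (i + 1)) (n + 2 + 1) =
      z * K z (fun i => d (i + 1)) (n + 1 + 1) - d (n + 2) * K z (fun i => d (i + 1)) (n + 1) := rfl
    have e3 : K z (fun i => d (i + 2)) (n + 2) =
      z * K z (fun i => d (i + 2)) (n + 1) - d (n + 2) * K z (fun i => d (i + 2)) n := rfl
    rw [e2, e3]
    module

/-- the determinant identity -/
theorem path_det {V : Type*} [AddCommGroup V] [Module ℂ V] (z : ℂ) (d : ℕ → ℂ) (v : ℕ → V)
    (hv : ∀ i, v (i + 2) = z • v (i + 1) - d i • v i) : ∀ n : ℕ,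
    K z (fun i => d (i + 1)) (n + 1) • v (n + 1) - K z (fun i => d (i + 1)) n • v (n + 2)
      = (∏ i ∈ Finset.range (n + 1), d i) • v 0
  | 0 => by
    rw [hv 0, K_one, K_zero, Finset.prod_range_one]
    module
  | n + 1 => by
    have h1 := path_det z d v hv n
    rw [hv (n + 1), Finset.prod_range_succ, mul_comm, mul_smul, ← h1]
    have e2 : K z (fun i => d (i + 1)) (n + 1 + 1) =
      z * K z (fun i => d (i + 1)) (n + 1) - d (n + 1) * K z (fun i => d (i + 1)) n := rfl
    rw [e2]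
    module

theorem K_norm_le {k : ℕ → ℂ} (hk : ∀ i, ‖k i‖ ≤ 1) (z : ℂ) : ∀ n : ℕ,
    ‖K z k n‖ ≤ (‖z‖ + 1) ^ n
  | 0 => by simp [K_zero]
  | 1 => by
    rw [K_one, pow_one]
    linarith
  | n + 2 => by
    have h1 := K_norm_le hk z (n + 1)
    have h2 := K_norm_le hk z n
    have hz := norm_nonneg z
    have h3 : (0 : ℝ) ≤ (‖z‖ + 1) ^ n := by positivity
    calc ‖K z k (n + 2)‖ ≤ ‖z‖ * ‖K z k (n + 1)‖ + ‖k n‖ * ‖K z k n‖ := by
          rw [K_add, ← norm_mul, ← norm_mul]
          exact norm_sub_le _ _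
      _ ≤ ‖z‖ * (‖z‖ + 1) ^ (n + 1) + 1 * (‖z‖ + 1) ^ n := by
          gcongr
          exact hk n
      _ ≤ (‖z‖ + 1) ^ (n + 2) := by
          have : (‖z‖ + 1) ^ (n + 2) - (‖z‖ * (‖z‖ + 1) ^ (n + 1) + 1 * (‖z‖ + 1) ^ n)
              = (‖z‖ + 1) ^ n * ‖z‖ := by ring
          nlinarith [mul_nonneg h3 hz]

theorem K_two_ne {k : ℕ → ℂ} (hk : ∀ i, ‖k i‖ = 1) : ∀ n : ℕ,
    1 ≤ ‖K 2 k n‖ ∧ ‖K 2 k n‖ ≤ ‖K 2 k (n + 1)‖
  | 0 => by simp [K_zero, K_one]
  | n + 1 => by
    obtain ⟨h1, h2⟩ := K_two_ne hk n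
    refine ⟨h1.trans h2, ?_⟩
    have h3 : ‖(2 : ℂ) * K 2 k (n + 1)‖ - ‖k n * K 2 k n‖ ≤ ‖K 2 k (n + 1 + 1)‖ := by
      rw [K_add]
      exact norm_sub_norm_le _ _
    rw [norm_mul, norm_mul, hk, one_mul, Complex.norm_ofNat] at h3
    linarith

theorem K_differentiable (k : ℕ → ℂ) : ∀ n : ℕ, Differentiable ℂ (fun z => K z k n)
  | 0 => by
    simp only [K_zero]
    exact differentiable_const _
  | 1 => by
    simp only [K_one]
    exact differentiable_id
  | n + 2 => by
    simp only [K_add]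
    exact (differentiable_id.mul (K_differentiable k (n + 1))).sub
      ((differentiable_const _).mul (K_differentiable k n))

end

end Pool.Agent.FZR
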