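import Mathlib

/-!
# Balancing signs for complex numbers (MP_1b8d20_an)
-/

set_option autoImplicit false

namespace Pool.Agent.FZR

noncomputable section

theorem gram_zero (a b c d e f : ℝ) :
    (a ^ 2 + b ^ 2) * (c ^ 2 + d ^ 2) * (e ^ 2 + f ^ 2)
      + 2 * (a * c + b * d) * (a * e + b * f) * (c * e + d * f)
      - (a ^ 2 + b ^ 2) * (c * e + d * f) ^ 2 - (c ^ 2 + d ^ 2) * (a * e + b * f) ^ 2
      - (e ^ 2 + f ^ 2) * (a * c + b * d) ^ 2 = 0 := by
  ring

theorem gram_pos {A B C x y t : ℝ} (hA : 0 ≤ A) (hB : 0 ≤ B) (hC : 0 ≤ C)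
    (hx : 4 * x ^ 2 < A * B) (hy : 4 * y ^ 2 < A * C) (ht : 4 * t ^ 2 < B * C) :
    A * B * C + 2 * x * y * t - A * t ^ 2 - B * y ^ 2 - C * x ^ 2 ≠ 0 := by
  have hA' : 0 < A := by
    rcases hA.eq_or_lt with h | h
    · rw [← h] at hx
      nlinarith [sq_nonneg x]
    · exact h
  have hB' : 0 < B := by
    rcases hB.eq_or_lt with h | h
    · rw [← h] at hx
      nlinarith [sq_nonneg x]
    · exact h
  have hC' : 0 < C := by
    rcases hC.eq_or_lt with h | h
    · rw [← h] at hy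
      nlinarith [sq_nonneg y]
    · exact h
  have h1 : A * t ^ 2 < A * (B * C / 4) := by
    apply mul_lt_mul_of_pos_left _ hA'
    linarith
  have h2 : B * y ^ 2 < B * (A * C / 4) := by
    apply mul_lt_mul_of_pos_left _ hB'
    linarith
  have h3 : C * x ^ 2 < C * (A * B / 4) := by
    apply mul_lt_mul_of_pos_left _ hC'
    linarith
  have hP : 0 < A * B * C := by positivity
  have h4 : (8 * (x * y * t)) ^ 2 < (A * B * C) ^ 2 := by
    have e1 : (8 * (x * y * t)) ^ 2 = (4 * x ^ 2) * ((4 * y ^ 2) * (4 * t ^ 2)) := by ring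
    have e2 : (A * B * C) ^ 2 = (A * B) * ((A * C) * (B * C)) := by ring
    rw [e1, e2]
    apply mul_lt_mul'' hx _ (by positivity) (by positivity)
    exact mul_lt_mul'' hy ht (by positivity) (by positivity)
  have h5 : |8 * (x * y * t)| < A * B * C := by
    have := sq_lt_sq.mp h4
    rwa [abs_of_pos hP] at this
  have h6 := (abs_lt.mp h5).1
  intro h
  nlinarith

theorem half_of_far {G : ℝ} {u v : ℂ} (hu : ‖u‖ ≤ G) (hv : ‖v‖ ≤ G)
    (h1 : G < ‖u + v‖) (h2 : G < ‖u - v‖) :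
    4 * (u.re * v.re + u.im * v.im) ^ 2 < (u.re ^ 2 + u.im ^ 2) * (v.re ^ 2 + v.im ^ 2) := by
  have hG : 0 ≤ G := (norm_nonneg _).trans hu
  have e : ∀ w : ℂ, ‖w‖ ^ 2 = w.re ^ 2 + w.im ^ 2 := fun w => by
    rw [← Complex.normSq_eq_norm_sq, Complex.normSq_apply]
    ring
  have a1 : u.re ^ 2 + u.im ^ 2 ≤ G ^ 2 := by
    rw [← e]
    exact pow_le_pow_left₀ (norm_nonneg _) hu 2
  have a2 : v.re ^ 2 + v.im ^ 2 ≤ G ^ 2 := by
    rw [← e]
    exact pow_le_pow_left₀ (norm_nonneg _) hv 2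
  have a3 : G ^ 2 < (u.re + v.re) ^ 2 + (u.im + v.im) ^ 2 := by
    have := pow_lt_pow_left₀ h1 hG (n := 2) (by norm_num)
    rwa [e, Complex.add_re, Complex.add_im] at this
  have a4 : G ^ 2 < (u.re - v.re) ^ 2 + (u.im - v.im) ^ 2 := by
    have := pow_lt_pow_left₀ h2 hG (n := 2) (by norm_num)
    rwa [e, Complex.sub_re, Complex.sub_im] at this
  set x := u.re * v.re + u.im * v.im with hx
  set A := u.re ^ 2 + u.im ^ 2 with hA
  set B := v.re ^ 2 + v.im ^ 2 with hB
  have hA0 : 0 ≤ A := by positivity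
  have hB0 : 0 ≤ B := by positivity
  have b1 : G ^ 2 < A + B + 2 * x := by
    rw [hA, hB, hx]
    linarith [a3]
  have b2 : G ^ 2 < A + B - 2 * x := by
    rw [hA, hB, hx]
    linarith [a4]
  have c1 : |2 * x| < A := abs_lt.mpr ⟨by linarith, by linarith⟩
  have c2 : |2 * x| < B := abs_lt.mpr ⟨by linarith, by linarith⟩
  have c3 : |2 * x| * |2 * x| < A * B := mul_lt_mul'' c1 c2 (abs_nonneg _) (abs_nonneg _)
  have c4 : |2 * x| * |2 * x| = 4 * x ^ 2 := by
    rw [abs_mul_abs_self]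
    ring
  linarith

/-- among three complex numbers of modulus at most `G` two, `u` and `v`, satisfy `|u ± v| ≤ G` -/
theorem two_of_three {G : ℝ} {u v w : ℂ} (hu : ‖u‖ ≤ G) (hv : ‖v‖ ≤ G) (hw : ‖w‖ ≤ G) :
    (∃ e : ℂ, (e = 1 ∨ e = -1) ∧ ‖u - e * v‖ ≤ G) ∨
    (∃ e : ℂ, (e = 1 ∨ e = -1) ∧ ‖u - e * w‖ ≤ G) ∨
    (∃ e : ℂ, (e = 1 ∨ e = -1) ∧ ‖v - e * w‖ ≤ G) := by
  by_contra hcon
  push Not at hcon
  obtain ⟨h1, h2, h3⟩ := hcon
  have f : ∀ a b : ℂ, (∀ e : ℂ, (e = 1 ∨ e = -1) → G < ‖a - e * b‖) →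
      G < ‖a + b‖ ∧ G < ‖a - b‖ := by
    intro a b h
    have h1 := h 1 (Or.inl rfl)
    have h2 := h (-1) (Or.inr rfl)
    rw [one_mul] at h1
    rw [neg_one_mul, sub_neg_eq_add] at h2
    exact ⟨h2, h1⟩
  have k1 := half_of_far hu hv (f u v h1).1 (f u v h1).2
  have k2 := half_of_far hu hw (f u w h2).1 (f u w h2).2
  have k3 := half_of_far hv hw (f v w h3).1 (f v w h3).2
  exact gram_pos (by positivity) (by positivity) (by positivity) k1 k2 k3
    (by linarith [gram_zero u.re u.im v.re v.im w.re w.im])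

/-- BALANCING: signs with bounded partial sums, with two free vectors -/
theorem balance_aux {G : ℝ} : ∀ (M : ℕ) (g : ℕ → ℂ), (∀ j, ‖g j‖ ≤ G) → ∀ u v : ℂ, ‖u‖ ≤ G →
    ‖v‖ ≤ G → ∃ (α β : ℂ) (s : ℕ → ℂ), (α = 1 ∨ α = -1) ∧ (β = 1 ∨ β = -1) ∧
      (∀ j, s j = 1 ∨ s j = -1) ∧
      ∀ m, m ≤ M → ‖α * u + β * v + ∑ j ∈ Finset.range m, s j * g j‖ ≤ 2 * G
  | 0, g, hg, u, v, hu, hv => by
    refine ⟨1, 1, fun _ => 1, Or.inl rfl, Or.inl rfl, fun _ => Or.inl rfl, fun m hm => ?_⟩
    have : m = 0 := by omega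
    subst this
    rw [Finset.sum_range_zero, add_zero, one_mul, one_mul]
    exact (norm_add_le _ _).trans (by linarith)
  | M + 1, g, hg, u, v, hu, hv => by
    have sgn_mul : ∀ a b : ℂ, (a = 1 ∨ a = -1) → (b = 1 ∨ b = -1) → (-(a * b) = 1 ∨ -(a * b) = -1) := by
      rintro a b (rfl | rfl) (rfl | rfl) <;> simp
    have small : ∀ a b : ℂ, (a = 1 ∨ a = -1) → (b = 1 ∨ b = -1) → ‖a * u + b * v‖ ≤ 2 * G := by
      intro a b ha hb
      have h1 : ‖a‖ = 1 := by rcases ha with rfl | rfl <;> simp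
      have h2 : ‖b‖ = 1 := by rcases hb with rfl | rfl <;> simp
      refine (norm_add_le _ _).trans ?_
      rw [norm_mul, norm_mul, h1, h2]
      linarith
    rcases two_of_three hu hv (hg 0) with ⟨e, he, h⟩ | ⟨e, he, h⟩ | ⟨e, he, h⟩
    · obtain ⟨α, β, s, hα, hβ, hs, hb⟩ := balance_aux M (fun j => g (j + 1)) (fun j => hg _)
        (u - e * v) (g 0) h (hg 0)
      refine ⟨α, -(α * e), fun j => Nat.casesOn j β s, hα, sgn_mul _ _ hα he, ?_, ?_⟩
      · rintro (_ | j)
        · exact hβ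
        · exact hs j
      · rintro (_ | m) hm
        · rw [Finset.sum_range_zero, add_zero]
          exact small _ _ hα (sgn_mul _ _ hα he)
        · have h1 := hb m (by omega)
          rw [Finset.sum_range_succ']
          have e1 : α * u + -(α * e) * v + (∑ k ∈ Finset.range m,
              (Nat.casesOn (k + 1) β s : ℂ) * g (k + 1) + (Nat.casesOn 0 β s : ℂ) * g 0)
              = α * (u - e * v) + β * g 0 + ∑ j ∈ Finset.range m, s j * g (j + 1) := by
            show α * u + -(α * e) * v + (∑ k ∈ Finset.range m, s k * g (k + 1) + β * g 0) = _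
            ring
          rw [e1]
          exact h1
    · obtain ⟨α, β, s, hα, hβ, hs, hb⟩ := balance_aux M (fun j => g (j + 1)) (fun j => hg _)
        (u - e * g 0) v h hv
      refine ⟨α, β, fun j => Nat.casesOn j (-(α * e)) s, hα, hβ, ?_, ?_⟩
      · rintro (_ | j)
        · exact sgn_mul _ _ hα he
        · exact hs j
      · rintro (_ | m) hm
        · rw [Finset.sum_range_zero, add_zero]
          exact small _ _ hα hβ
        · have h1 := hb m (by omega)
          rw [Finset.sum_range_succ']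
          have e1 : α * u + β * v + (∑ k ∈ Finset.range m,
              (Nat.casesOn (k + 1) (-(α * e)) s : ℂ) * g (k + 1)
                + (Nat.casesOn 0 (-(α * e)) s : ℂ) * g 0)
              = α * (u - e * g 0) + β * v + ∑ j ∈ Finset.range m, s j * g (j + 1) := by
            show α * u + β * v + (∑ k ∈ Finset.range m, s k * g (k + 1) + -(α * e) * g 0) = _
            ring
          rw [e1]
          exact h1
    · obtain ⟨α, β, s, hα, hβ, hs, hb⟩ := balance_aux M (fun j => g (j + 1)) (fun j => hg _)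
        u (v - e * g 0) hu h
      refine ⟨α, β, fun j => Nat.casesOn j (-(β * e)) s, hα, hβ, ?_, ?_⟩
      · rintro (_ | j)
        · exact sgn_mul _ _ hβ he
        · exact hs j
      · rintro (_ | m) hm
        · rw [Finset.sum_range_zero, add_zero]
          exact small _ _ hα hβ
        · have h1 := hb m (by omega)
          rw [Finset.sum_range_succ']
          have e1 : α * u + β * v + (∑ k ∈ Finset.range m,
              (Nat.casesOn (k + 1) (-(β * e)) s : ℂ) * g (k + 1)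
                + (Nat.casesOn 0 (-(β * e)) s : ℂ) * g 0)
              = α * u + β * (v - e * g 0) + ∑ j ∈ Finset.range m, s j * g (j + 1) := by
            show α * u + β * v + (∑ k ∈ Finset.range m, s k * g (k + 1) + -(β * e) * g 0) = _
            ring
          rw [e1]
          exact h1

/-- BALANCING: for complex numbers of modulus at most `G` there are signs with all partial sums of
modulus at most `2 G` -/
theorem balance {G : ℝ} (M : ℕ) (g : ℕ → ℂ) (hg : ∀ j, ‖g j‖ ≤ G) : ∃ s : ℕ → ℂ,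
    (∀ j, s j = 1 ∨ s j = -1) ∧ ∀ m, m ≤ M → ‖∑ j ∈ Finset.range m, s j * g j‖ ≤ 2 * G := by
  have hG : 0 ≤ G := (norm_nonneg _).trans (hg 0)
  obtain ⟨α, β, s, _, _, hs, hb⟩ := balance_aux M g hg 0 0 (by simpa using hG) (by simpa using hG)
  refine ⟨s, hs, fun m hm => ?_⟩
  have := hb m hm
  rwa [mul_zero, mul_zero, zero_add, zero_add] at this

/-- PACKING: the number of `δ`-separated points in a disc -/
theorem pack2 {ι : Type*} (s : Finset ι) (a : ι → ℂ) (ρ δ : ℝ) (hδ : 0 < δ) (hρ : 0 ≤ ρ)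
    (ha : ∀ i ∈ s, ‖a i‖ ≤ ρ) (hsep : ∀ i ∈ s, ∀ j ∈ s, i ≠ j → δ ≤ ‖a i - a j‖) :
    (s.card : ℝ) * δ ^ 2 ≤ (2 * ρ + δ) ^ 2 := by
  have hdisj : Set.PairwiseDisjoint (s : Set ι) (fun i => Metric.ball (a i) (δ / 2)) := by
    intro i hi j hj hij
    apply Metric.ball_disjoint_ball
    rw [dist_eq_norm]
    have := hsep i hi j hj hij
    linarith
  have h1 := MeasureTheory.measure_biUnion_finset (μ := MeasureTheory.volume) hdisj
    (fun i _ => Metric.isOpen_ball.measurableSet)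
  have hsub : (⋃ i ∈ s, Metric.ball (a i) (δ / 2)) ⊆ Metric.ball (0 : ℂ) (ρ + δ / 2) := by
    intro x hx
    rw [Set.mem_iUnion₂] at hx
    obtain ⟨i, hi, hx⟩ := hx
    rw [Metric.mem_ball, dist_eq_norm] at hx
    rw [mem_ball_zero_iff]
    have h2 := norm_add_le (x - a i) (a i)
    rw [sub_add_cancel] at h2
    have := ha i hi
    linarith
  have h2 := MeasureTheory.measure_mono (μ := MeasureTheory.volume) hsub
  rw [h1] at h2
  simp only [Complex.volume_ball, Finset.sum_const, nsmul_eq_mul] at h2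
  have hpi : (NNReal.pi : ENNReal) ≠ 0 := by
    rw [ENNReal.coe_ne_zero]
    exact NNReal.pi_ne_zero
  rw [← mul_assoc, ENNReal.mul_le_mul_iff_left hpi ENNReal.coe_ne_top,
    ← ENNReal.ofReal_pow (by positivity), ← ENNReal.ofReal_pow (by positivity),
    ← ENNReal.ofReal_natCast, ← ENNReal.ofReal_mul (by positivity),
    ENNReal.ofReal_le_ofReal_iff (by positivity)] at h2
  nlinarith

/-- a disc contains only boundedly many separated points -/
theorem packing (R δ : ℝ) (hδ : 0 < δ) : ∃ N : ℕ, ∀ a : ℕ → ℂ, (∀ m, m ≤ N → ‖a m‖ ≤ R) →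
    ∃ i j, i < j ∧ j ≤ N ∧ ‖a i - a j‖ < δ := by
  obtain ⟨t, _, hfin, hcov⟩ := (isCompact_closedBall (0 : ℂ) R).finite_cover_balls (e := δ / 2)
    (by positivity)
  refine ⟨hfin.toFinset.card, fun a ha => ?_⟩
  have h1 : ∀ m : ℕ, m ≤ hfin.toFinset.card → ∃ x ∈ t, a m ∈ Metric.ball x (δ / 2) := by
    intro m hm
    have h2 : a m ∈ Metric.closedBall (0 : ℂ) R := by
      rw [mem_closedBall_zero_iff]
      exact ha m hm
    have h3 := hcov h2
    simpa using h3
  choose! f hf1 hf2 using h1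
  have h4 : ¬ Set.InjOn f (Finset.range (hfin.toFinset.card + 1) : Finset ℕ) := by
    intro hinj
    have h5 : (Finset.range (hfin.toFinset.card + 1)).card ≤ hfin.toFinset.card := by
      apply Finset.card_le_card_of_injOn f _ hinj
      intro m hm
      rw [Finset.mem_coe, Finset.mem_range] at hm
      rw [Finset.mem_coe, Set.Finite.mem_toFinset]
      exact hf1 m (by omega)
    rw [Finset.card_range] at h5
    omega
  rw [Set.InjOn] at h4
  push Not at h4
  obtain ⟨i, hi, j, hj, hij, hne⟩ := h4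
  rw [Finset.mem_coe, Finset.mem_range] at hi hj
  have key : ∀ i j : ℕ, i ≤ hfin.toFinset.card → j ≤ hfin.toFinset.card → f i = f j →
      ‖a i - a j‖ < δ := by
    intro i j hi hj h
    have h5 := hf2 i hi
    have h6 := hf2 j hj
    rw [← h] at h6
    rw [Metric.mem_ball] at h5 h6
    rw [← dist_eq_norm]
    calc dist (a i) (a j) ≤ dist (a i) (f i) + dist (f i) (a j) := dist_triangle _ _ _
      _ < δ / 2 + δ / 2 := by
        rw [dist_comm (f i)]
        exact add_lt_add h5 h6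
      _ = δ := by ring
  rcases lt_or_gt_of_ne hne with h | h
  · exact ⟨i, j, h, by omega, key i j (by omega) (by omega) hij⟩
  · exact ⟨j, i, h, by omega, key j i (by omega) (by omega) hij.symm⟩

end

end Pool.Agent.FZR
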