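import Pool.Agent.helper30.FZ.Defs
import Pool.Agent.helper81.FZ.Cont

/-!
# The lifting lemma (MP_1b8d20_an)
-/

set_option autoImplicit false

namespace Pool.Agent.FZR

open Pool.Agent.FZ (IsPer)

noncomputable section

/-- orbits of invertible maps on `ℤ` -/
theorem exists_int_orbit {X : Type*} (g : ℤ → Equiv.Perm X) (x0 : X) :
    ∃ x : ℤ → X, x 0 = x0 ∧ ∀ j, x (j + 1) = g j (x j) := by
  let a : ℕ → X := fun n => Nat.rec x0 (fun n y => g n y) n
  let b : ℕ → X := fun n => Nat.rec x0 (fun n y => (g (Int.negSucc n)).symm y) n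
  have hb : ∀ n : ℕ, b (n + 1) = (g (Int.negSucc n)).symm (b n) := fun n => rfl
  refine ⟨fun j => Int.casesOn j a (fun n => b (n + 1)), rfl, fun j => ?_⟩
  rcases j with n | n
  · rfl
  · rcases n with _ | n
    · show x0 = g (Int.negSucc 0) ((g (Int.negSucc 0)).symm x0)
      rw [Equiv.apply_symm_apply]
    · have e : Int.negSucc (n + 1) + 1 = Int.negSucc n := rfl
      rw [e]
      show b (n + 1) = g (Int.negSucc (n + 1)) (b (n + 1 + 1))
      rw [hb (n + 1), Equiv.apply_symm_apply]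

/-- the recursive sequence with given coefficients and first two terms -/
def run {V : Type*} [AddCommGroup V] [Module ℂ V] (z : ℂ) (d : ℕ → ℂ) (x0 x1 : V) : ℕ → V
  | 0 => x0
  | 1 => x1
  | n + 2 => z • run z d x0 x1 (n + 1) - d n • run z d x0 x1 n

theorem run_norm {V : Type*} [NormedAddCommGroup V] [NormedSpace ℂ V] {z : ℂ} {d : ℕ → ℂ}
    {x0 x1 : V} {M : ℝ} (hd : ∀ i, ‖d i‖ ≤ 1) (h0 : ‖x0‖ ≤ M) (h1 : ‖x1‖ ≤ M) : ∀ n : ℕ,
    ‖run z d x0 x1 n‖ ≤ (‖z‖ + 1) ^ n * M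
  | 0 => by
    rw [pow_zero, one_mul]
    exact h0
  | 1 => by
    rw [pow_one]
    show ‖x1‖ ≤ _
    have hM : 0 ≤ M := (norm_nonneg _).trans h0
    nlinarith [mul_nonneg (norm_nonneg z) hM]
  | n + 2 => by
    have hM : 0 ≤ M := (norm_nonneg _).trans h0
    have e1 := run_norm hd h0 h1 (n + 1) (z := z)
    have e2 := run_norm hd h0 h1 n (z := z)
    have hz := norm_nonneg z
    have h3 : (0 : ℝ) ≤ (‖z‖ + 1) ^ n * M := by positivity
    calc ‖run z d x0 x1 (n + 2)‖
        ≤ ‖z • run z d x0 x1 (n + 1)‖ + ‖d n • run z d x0 x1 n‖ := norm_sub_le _ _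
      _ = ‖z‖ * ‖run z d x0 x1 (n + 1)‖ + ‖d n‖ * ‖run z d x0 x1 n‖ := by
          rw [norm_smul, norm_smul]
      _ ≤ ‖z‖ * ((‖z‖ + 1) ^ (n + 1) * M) + 1 * ((‖z‖ + 1) ^ n * M) := by
          gcongr
          exact hd n
      _ ≤ (‖z‖ + 1) ^ (n + 2) * M := by
          have : (‖z‖ + 1) ^ (n + 2) * M - (‖z‖ * ((‖z‖ + 1) ^ (n + 1) * M)
              + 1 * ((‖z‖ + 1) ^ n * M)) = ((‖z‖ + 1) ^ n * M) * ‖z‖ := by ring
          nlinarith [mul_nonneg h3 hz]

theorem sgn_mul {a b : ℂ} (ha : a = 1 ∨ a = -1) (hb : b = 1 ∨ b = -1) : a * b = 1 ∨ a * b = -1 := by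
  rcases ha with rfl | rfl <;> rcases hb with rfl | rfl <;> simp

theorem sgn_neg {a : ℂ} (ha : a = 1 ∨ a = -1) : -a = 1 ∨ -a = -1 := by
  rcases ha with rfl | rfl <;> simp

theorem sgn_sq {a : ℂ} (ha : a = 1 ∨ a = -1) : a * a = 1 := by
  rcases ha with rfl | rfl <;> simp

theorem sgn_norm {a : ℂ} (ha : a = 1 ∨ a = -1) : ‖a‖ = 1 := by
  rcases ha with rfl | rfl <;> simp

theorem sgn_ne {a : ℂ} (ha : a = 1 ∨ a = -1) : a ≠ 0 := by
  rcases ha with rfl | rfl <;> simp

theorem sgn_prod {q : ℕ → ℂ} (hq : ∀ i, q i = 1 ∨ q i = -1) (n : ℕ) :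
    ∏ i ∈ Finset.range n, q i = 1 ∨ ∏ i ∈ Finset.range n, q i = -1 := by
  induction n with
  | zero => simp
  | succ n ih =>
    rw [Finset.prod_range_succ]
    exact sgn_mul ih (hq n)

/-- sign sequences with prescribed quotients -/
theorem exists_sgn (s : ℤ → ℂ) (hs : ∀ j, s j = 1 ∨ s j = -1) (b0 : ℂ) (hb0 : b0 = 1 ∨ b0 = -1) :
    ∃ b : ℤ → ℂ, b 0 = b0 ∧ (∀ j, b j = 1 ∨ b j = -1) ∧ ∀ j, b (j + 1) = s (j + 1) * b j := by
  obtain ⟨b, h0, h1⟩ := exists_int_orbit (fun j => Equiv.mulLeft₀ (s (j + 1)) (sgn_ne (hs _))) b0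
  have h1' : ∀ j, b (j + 1) = s (j + 1) * b j := fun j => h1 j
  refine ⟨b, h0, ?_, h1'⟩
  intro j
  induction j using Int.induction_on with
  | zero => rw [h0]; exact hb0
  | succ i ih =>
    rw [h1']
    exact sgn_mul (hs _) ih
  | pred i ih =>
    have h2 := h1' (-(i : ℤ) - 1)
    rw [sub_add_cancel] at h2
    have h3 : b (-(i : ℤ) - 1) = s (-(i : ℤ)) * b (-(i : ℤ)) := by
      rw [h2, ← mul_assoc, sgn_sq (hs _), one_mul]
    rw [h3]
    exact sgn_mul (hs _) ih

/-- the sign sequences with periodic quotients are periodic -/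
theorem sgn_per {s b : ℤ → ℂ} (hs : ∀ j, s j = 1 ∨ s j = -1) (hb : ∀ j, b j = 1 ∨ b j = -1)
    (h1 : ∀ j, b (j + 1) = s (j + 1) * b j) {m : ℤ} (hm : ∀ j, s (j + m) = s j) (j : ℤ) :
    b (j + 2 * m) = b j := by
  have hr : ∀ j, b (j + 1 + m) * b (j + 1) = b (j + m) * b j := by
    intro j
    have e : j + 1 + m = (j + m) + 1 := by ring
    have e2 : s (j + m + 1) = s (j + 1) := by
      have e3 : j + m + 1 = (j + 1) + m := by ring
      rw [e3, hm]
    rw [e, h1 (j + m), h1 j, e2]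
    have := sgn_sq (hs (j + 1))
    calc s (j + 1) * b (j + m) * (s (j + 1) * b j)
        = (s (j + 1) * s (j + 1)) * (b (j + m) * b j) := by ring
      _ = _ := by rw [this, one_mul]
  have hc : ∀ j, b (j + m) * b j = b (0 + m) * b 0 := by
    intro j
    induction j using Int.induction_on with
    | zero => rfl
    | succ i ih => rw [hr, ih]
    | pred i ih =>
      have h2 := hr (-(i : ℤ) - 1)
      rw [sub_add_cancel] at h2
      rw [← h2, ih]
  have e1 := hc j
  have e2 := hc (j + m)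
  have e3 : j + m + m = j + 2 * m := by ring
  rw [e3] at e2
  have s1 := sgn_sq (hb (j + m))
  have s2 := sgn_sq (hb (j + 2 * m))
  have s3 := sgn_sq (hb j)
  -- b (j+2m) b (j+m) = b (j+m) b j
  have e4 : b (j + 2 * m) * b (j + m) = b (j + m) * b j := by rw [e1, e2]
  calc b (j + 2 * m) = b (j + 2 * m) * (b (j + m) * b (j + m)) := by rw [s1, mul_one]
    _ = (b (j + 2 * m) * b (j + m)) * b (j + m) := by ring
    _ = (b (j + m) * b (j + m)) * b j := by rw [e4]; ring
    _ = b j := by rw [s1, one_mul]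

/-- gluing of blocks of length `N` -/
theorem glue {X : Type*} (N : ℕ) (hN : 0 < N) (F : ℤ → ℕ → X) :
    ∃ u : ℤ → X, ∀ (j : ℤ) (r : ℕ), r < N → u (N * j + r) = F j r := by
  refine ⟨fun i => F (i / N) (i % N).toNat, fun j r hr => ?_⟩
  have h := (Int.ediv_emod_unique (a := N * j + r) (b := N) (q := j) (r := r)
    (by exact_mod_cast hN)).2 ⟨by ring, by positivity, by exact_mod_cast hr⟩
  show F ((N * j + r : ℤ) / N) ((N * j + r : ℤ) % N).toNat = _
  rw [h.1, h.2, Int.toNat_natCast]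

theorem exists_block (N : ℕ) (hN : 0 < N) (i : ℤ) : ∃ (j : ℤ) (r : ℕ), r < N ∧ i = N * j + r := by
  have hN' : (0 : ℤ) < N := by exact_mod_cast hN
  have h1 := Int.emod_nonneg i hN'.ne'
  have h2 := Int.emod_lt_of_pos i hN'
  refine ⟨i / N, (i % N).toNat, by omega, ?_⟩
  rw [Int.toNat_of_nonneg h1]
  exact (Int.mul_ediv_add_emod i N).symm

/-- LIFTING: a solution at the parameter `w K w q (l+1)` gives a solution at the parameter `w`. -/
theorem lift {V : Type*} [NormedAddCommGroup V] [NormedSpace ℂ V] (w : ℂ) (q : ℕ → ℂ)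
    (hq : ∀ i, q i = 1 ∨ q i = -1) (l : ℕ) (hP : K w q (l + 1) ≠ 0) (c' : ℤ → ℂ)
    (hc' : ∀ j, c' j = 1 ∨ c' j = -1) (β0 : ℂ) (hβ0 : β0 = 1 ∨ β0 = -1) (U : ℤ → V)
    (hU : ∀ j, U (j + 1) = (w * K w q (l + 1)) • U j - c' j • U (j - 1)) :
    ∃ c : ℤ → ℂ, (∀ i, c i = 1 ∨ c i = -1) ∧ (IsPer c' → IsPer c) ∧
      ∃ u : ℤ → V, (∀ i, u (i + 1) = w • u i - c i • u (i - 1)) ∧
        (∀ j : ℤ, u (((l + 2 : ℕ) : ℤ) * j) = U j) ∧
        u 1 = (K w q (l + 1))⁻¹ • (U 1 + (β0 * K w (fun i => q (i + 1)) l) • U 0) ∧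
        ∀ B, (∀ j, ‖U j‖ ≤ B) → ∃ B', ∀ i, ‖u i‖ ≤ B' := by
  classical
  obtain ⟨Q, hQ⟩ : ∃ Q : ℂ, Q = ∏ i ∈ Finset.range l, q i := ⟨_, rfl⟩
  have hQs : Q = 1 ∨ Q = -1 := by rw [hQ]; exact sgn_prod hq l
  have hss : ∀ j, -Q * c' j = 1 ∨ -Q * c' j = -1 := fun j => sgn_mul (sgn_neg hQs) (hc' j)
  obtain ⟨β, hβz, hβs, hβr⟩ := exists_sgn (fun j => -Q * c' j) hss β0 hβ0
  -- the words
  obtain ⟨qj, hqj⟩ : ∃ qj : ℤ → ℕ → ℂ, qj = fun j => if Even j then q else fun i => q (l - 1 - i) :=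
    ⟨_, rfl⟩
  have hqe : ∀ j, Even j → qj j = q := fun j hj => by rw [hqj]; exact if_pos hj
  have hqo : ∀ j, ¬ Even j → qj j = fun i => q (l - 1 - i) := fun j hj => by
    rw [hqj]; exact if_neg hj
  have hqs : ∀ j i, qj j i = 1 ∨ qj j i = -1 := by
    intro j i
    by_cases hj : Even j
    · rw [hqe j hj]; exact hq i
    · rw [hqo j hj]; exact hq _
  have r1 : K w (fun i => q (l - 1 - i)) (l + 1) = K w q (l + 1) := by
    have := K_rev w (l + 1) q
    rw [← this]
    apply K_congr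
    intro i _
    show q _ = q _
    congr 1
  have hK1 : ∀ j, K w (qj j) (l + 1) = K w q (l + 1) := by
    intro j
    by_cases hj : Even j
    · rw [hqe j hj]
    · rw [hqo j hj, r1]
  have r2 : K w (fun i => q (l - 1 - (i + 1))) l = K w q l := by
    have := K_rev w l q
    rw [← this]
    apply K_congr
    intro i _
    show q _ = q _
    congr 1
    omega
  have r3 : K w (fun i => q (l - 1 - i)) l = K w (fun i => q (i + 1)) l := by
    have := K_rev w l (fun i => q (i + 1))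
    rw [← this]
    apply K_congr
    intro i hi
    show q _ = q _
    congr 1
    omega
  have hK2 : ∀ j, K w (fun i => qj (j + 1) (i + 1)) l = K w (qj j) l := by
    intro j
    by_cases hj : Even j
    · have hj' : ¬ Even (j + 1) := by rw [Int.even_add_one]; exact not_not.2 hj
      rw [hqe j hj, hqo _ hj']
      exact r2
    · have hj' : Even (j + 1) := by rw [Int.even_add_one]; exact hj
      rw [hqo j hj, hqe _ hj', r3]
  have hprod : ∀ j, ∏ i ∈ Finset.range l, qj j i = Q := by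
    intro j
    by_cases hj : Even j
    · rw [hqe j hj, hQ]
    · rw [hqo j hj, hQ]
      exact Finset.prod_range_reflect q l
  obtain ⟨P, hPdef⟩ : ∃ P, P = K w q (l + 1) := ⟨_, rfl⟩
  rw [← hPdef] at hP hU hK1 ⊢
  -- the blocks
  obtain ⟨d, hd⟩ : ∃ d : ℤ → ℕ → ℂ, d = fun j r => Nat.casesOn r (β j) (qj j) := ⟨_, rfl⟩
  have hd0 : ∀ j, d j 0 = β j := fun j => by subst hd; rfl
  have hd1 : ∀ j r, d j (r + 1) = qj j r := fun j r => by subst hd; rfl
  have hds : ∀ j r, d j r = 1 ∨ d j r = -1 := by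
    intro j r
    rcases r with _ | r
    · rw [hd0]; exact hβs j
    · rw [hd1]; exact hqs j r
  obtain ⟨v, hv⟩ : ∃ v : ℤ → ℕ → V, v = fun j => run w (d j) (U j)
      (P⁻¹ • (U (j + 1) + (β j * K w (fun i => qj j (i + 1)) l) • U j)) := ⟨_, rfl⟩
  have hv0 : ∀ j, v j 0 = U j := fun j => by rw [hv]; rfl
  have hv1 : ∀ j, v j 1 = P⁻¹ • (U (j + 1) + (β j * K w (fun i => qj j (i + 1)) l) • U j) :=
    fun j => by rw [hv]; rfl
  have hv2 : ∀ j i, v j (i + 2) = w • v j (i + 1) - d j i • v j i := fun j i => by rw [hv]; rfl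
  have hvN : ∀ j, v j (l + 2) = U (j + 1) := by
    intro j
    have h := path_eq w (d j) (v j) (hv2 j) l
    have e1 : (fun i => d j (i + 1)) = qj j := funext fun i => hd1 j i
    have e2 : (fun i => d j (i + 2)) = fun i => qj j (i + 1) := funext fun i => hd1 j (i + 1)
    rw [e1, e2, hK1, hd0, hv0, hv1, smul_smul, mul_inv_cancel₀ hP, one_smul] at h
    rw [h]
    abel
  have hvD : ∀ j, P • v j (l + 1) - K w (qj j) l • U (j + 1) = (β j * Q) • U j := by
    intro j
    have h := path_det w (d j) (v j) (hv2 j) l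
    have e1 : (fun i => d j (i + 1)) = qj j := funext fun i => hd1 j i
    rw [e1, hK1, hvN, hv0, Finset.prod_range_succ', hd0] at h
    have e2 : ∏ k ∈ Finset.range l, d j (k + 1) = Q := by
      rw [← hprod j]
      exact Finset.prod_congr rfl fun k _ => hd1 j k
    rw [e2, mul_comm Q] at h
    exact h
  obtain ⟨u, hu⟩ := glue (l + 2) (by omega) v
  obtain ⟨c, hc⟩ := glue (l + 2) (by omega) (fun j r => Nat.casesOn r (-β j) (d j) : ℤ → ℕ → ℂ)
  have hc0 : ∀ j : ℤ, c (((l + 2 : ℕ) : ℤ) * j) = -β j := by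
    intro j
    have := hc j 0 (by omega)
    rw [Nat.cast_zero, add_zero] at this
    exact this
  have hc1 : ∀ (j : ℤ) (r : ℕ), r < l + 1 → c (((l + 2 : ℕ) : ℤ) * j + (r + 1 : ℕ)) = d j r :=
    fun j r hr => hc j (r + 1) (by omega)
  have hu' : ∀ (j : ℤ) (r : ℕ), r ≤ l + 2 → u (((l + 2 : ℕ) : ℤ) * j + r) = v j r := by
    intro j r hr
    rcases hr.lt_or_eq with h | h
    · exact hu j r h
    · rw [h, hvN]
      have := hu (j + 1) 0 (by omega)
      rw [Nat.cast_zero, add_zero, hv0] at this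
      rw [← this]
      congr 1
      ring
  have hu0 : ∀ j : ℤ, u (((l + 2 : ℕ) : ℤ) * j) = U j := by
    intro j
    have := hu j 0 (by omega)
    rw [Nat.cast_zero, add_zero, hv0] at this
    exact this
  refine ⟨c, ?_, ?_, u, ?_, hu0, ?_, ?_⟩
  · intro i
    obtain ⟨j, r, hr, rfl⟩ := exists_block (l + 2) (by omega) i
    rcases r with _ | r
    · rw [Nat.cast_zero, add_zero, hc0]
      exact sgn_neg (hβs j)
    · rw [hc1 j r (by omega)]
      exact hds j r
  · rintro ⟨m, hm, hper⟩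
    have hβper := sgn_per hss hβs hβr (m := (m : ℤ)) (fun j => by
      show -Q * c' (j + m) = -Q * c' j
      rw [hper])
    have hdper : ∀ j r, d (j + 2 * m) r = d j r := by
      intro j r
      rcases r with _ | r
      · rw [hd0, hd0, hβper]
      · rw [hd1, hd1]
        have hpar : Even (j + 2 * (m : ℤ)) ↔ Even j := by
          rw [Int.even_add]
          simp
        by_cases hj : Even j
        · rw [hqe j hj, hqe _ (hpar.2 hj)]
        · rw [hqo j hj, hqo _ (fun h => hj (hpar.1 h))]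
    refine ⟨(l + 2) * (2 * m), by positivity, fun i => ?_⟩
    obtain ⟨j, r, hr, rfl⟩ := exists_block (l + 2) (by omega) i
    have e : (((l + 2 : ℕ) : ℤ) * j + r) + (((l + 2) * (2 * m) : ℕ) : ℤ)
        = ((l + 2 : ℕ) : ℤ) * (j + 2 * m) + r := by
      push_cast
      ring
    rw [e]
    rcases r with _ | r
    · rw [Nat.cast_zero, add_zero, add_zero, hc0, hc0, hβper]
    · rw [hc1 _ r (by omega), hc1 _ r (by omega), hdper]
  · intro i
    obtain ⟨j, r, hr, rfl⟩ := exists_block (l + 2) (by omega) i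
    rcases r with _ | r
    · rw [Nat.cast_zero, add_zero]
      obtain ⟨j', rfl⟩ : ∃ j', j = j' + 1 := ⟨j - 1, by ring⟩
      have e1 : u (((l + 2 : ℕ) : ℤ) * (j' + 1) + 1) = v (j' + 1) 1 := by
        have := hu (j' + 1) 1 (by omega)
        rwa [Nat.cast_one] at this
      have e2 : u (((l + 2 : ℕ) : ℤ) * (j' + 1) - 1) = v j' (l + 1) := by
        have := hu j' (l + 1) (by omega)
        rw [← this]
        congr 1
        push_cast
        ring
      rw [e1, e2, hu0, hc0, hv1, hU (j' + 1), hK2, add_sub_cancel_right]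
      have h3 := hvD j'
      have h4 : v j' (l + 1) = P⁻¹ • (K w (qj j') l • U (j' + 1) + (β j' * Q) • U j') := by
        rw [← h3, add_sub_cancel, smul_smul, inv_mul_cancel₀ hP, one_smul]
      rw [h4]
      have h5 : β (j' + 1) * (β j' * Q) = -c' (j' + 1) := by
        rw [hβr j']
        calc -Q * c' (j' + 1) * β j' * (β j' * Q)
            = -(Q * Q) * (β j' * β j') * c' (j' + 1) := by ring
          _ = -c' (j' + 1) := by rw [sgn_sq hQs, sgn_sq (hβs j')]; ring
      have h6 : P⁻¹ * (w * P) = w := by field_simp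
      have h7 : P⁻¹ • ((w * P) • U (j' + 1) - c' (j' + 1) • U j' +
          (β (j' + 1) * K w (qj j') l) • U (j' + 1))
          = (P⁻¹ * (w * P)) • U (j' + 1) + (P⁻¹ * (-c' (j' + 1))) • U j' +
            (P⁻¹ * (β (j' + 1) * K w (qj j') l)) • U (j' + 1) := by
        module
      rw [h7, h6, ← h5]
      module
    · have e1 : u (((l + 2 : ℕ) : ℤ) * j + (r + 1 : ℕ) + 1) = v j (r + 2) := by
        have := hu' j (r + 2) (by omega)
        rw [← this]
        congr 1
        push_cast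
        ring
      have e2 : u (((l + 2 : ℕ) : ℤ) * j + (r + 1 : ℕ)) = v j (r + 1) := hu' j (r + 1) (by omega)
      have e3 : u (((l + 2 : ℕ) : ℤ) * j + (r + 1 : ℕ) - 1) = v j r := by
        have := hu' j r (by omega)
        rw [← this]
        congr 1
        push_cast
        ring
      rw [e1, e2, e3, hc1 j r (by omega), hv2]
  · have := hu 0 1 (by omega)
    rw [mul_zero, zero_add, Nat.cast_one] at this
    rw [this, hv1, hβz, zero_add, hqe 0 (by simp)]
  · intro B hB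
    have hB0 : 0 ≤ B := (norm_nonneg _).trans (hB 0)
    obtain ⟨T, hT⟩ : ∃ T : ℝ, T = (‖w‖ + 1) ^ l := ⟨_, rfl⟩
    have hT0 : 0 ≤ T := by rw [hT]; positivity
    obtain ⟨M, hM⟩ : ∃ M : ℝ, M = B + ‖P⁻¹‖ * (B + T * B) := ⟨_, rfl⟩
    have hM0 : 0 ≤ M := by rw [hM]; positivity
    have hw1 : 1 ≤ ‖w‖ + 1 := by linarith [norm_nonneg w]
    refine ⟨(‖w‖ + 1) ^ (l + 2) * M, fun i => ?_⟩
    obtain ⟨j, r, hr, rfl⟩ := exists_block (l + 2) (by omega) i
    rw [hu j r hr, hv]
    have h1 : ‖P⁻¹ • (U (j + 1) + (β j * K w (fun i => qj j (i + 1)) l) • U j)‖ ≤ M := by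
      rw [norm_smul]
      have h2 : ‖U (j + 1) + (β j * K w (fun i => qj j (i + 1)) l) • U j‖ ≤ B + T * B := by
        refine (norm_add_le _ _).trans ?_
        rw [norm_smul, norm_mul, sgn_norm (hβs j), one_mul]
        have h3 : ‖K w (fun i => qj j (i + 1)) l‖ ≤ T := by
          rw [hT]
          exact K_norm_le (fun i => (sgn_norm (hqs j (i + 1))).le) w l
        exact add_le_add (hB _) (mul_le_mul h3 (hB _) (norm_nonneg _) hT0)
      rw [hM]
      have h4 := mul_le_mul_of_nonneg_left h2 (norm_nonneg P⁻¹)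
      linarith
    refine (run_norm (fun i => (sgn_norm (hds j i)).le) ((hB j).trans ?_) h1 r).trans ?_
    · rw [hM]
      have : 0 ≤ ‖P⁻¹‖ * (B + T * B) := by positivity
      linarith
    · apply mul_le_mul_of_nonneg_right _ hM0
      exact pow_le_pow_right₀ hw1 hr.le

end

end Pool.Agent.FZR
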