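import Pool.Agent.helper81.FZ.Per
import Pool.Agent.helper81.FZ.Bal

/-!
# Nested lifts, separation and the theorem on bounded orbits (MP_1b8d20_an)
-/

set_option autoImplicit false

namespace Pool.Agent.FZR

open Filter Topology Pool.Agent.FZ

noncomputable section

/-- the determinant of two vectors -/
def dt (x y : ℂ × ℂ) : ℂ := x.1 * y.2 - x.2 * y.1

/-- SEPARATION -/
theorem sep {z : ℂ} (hS : ∀ (n : ℕ) (q : ℕ → ℂ), (∀ i, q i = 1 ∨ q i = -1) → 1 ≤ ‖z * K z q n‖)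
    {c : ℤ → ℂ} (hc : ∀ i, c i = 1 ∨ c i = -1) {u : ℤ → ℂ × ℂ}
    (hu : ∀ i, u (i + 1) = z • u i - c i • u (i - 1)) (h0 : u 0 = (1, 0)) (h1 : u 1 = (0, 1)) :
    ∀ i j : ℕ, i < j → 1 ≤ ‖z * dt (u i) (u j)‖ := by
  have hrec : ∀ (x : ℂ × ℂ) (i : ℤ), dt x (u (i + 1)) = z * dt x (u i) - c i * dt x (u (i - 1)) := by
    intro x i
    rw [hu i]
    simp only [dt, Prod.fst_sub, Prod.snd_sub, Prod.smul_fst, Prod.smul_snd, smul_eq_mul]
    ring
  have hself : ∀ x : ℂ × ℂ, dt x x = 0 := fun x => by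
    unfold dt
    ring
  have hanti : ∀ x y : ℂ × ℂ, dt x y = -dt y x := fun x y => by
    unfold dt
    ring
  have hone : ∀ i : ℕ, dt (u i) (u ((i : ℤ) + 1)) = 1 ∨ dt (u i) (u ((i : ℤ) + 1)) = -1 := by
    intro i
    induction i with
    | zero =>
      left
      rw [Nat.cast_zero, zero_add, h0, h1]
      simp [dt]
    | succ i ih =>
      have h2 := hrec (u ((i : ℤ) + 1)) ((i : ℤ) + 1)
      rw [hself, mul_zero, zero_sub, add_sub_cancel_right, hanti (u ((i : ℤ) + 1)) (u i)] at h2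
      push_cast
      rw [h2, mul_neg, neg_neg]
      exact sgn_mul (hc _) ih
  intro i j hij
  obtain ⟨r, rfl⟩ : ∃ r, j = i + 1 + r := ⟨j - (i + 1), by omega⟩
  have hz : 1 ≤ ‖z‖ := by
    have := hS 0 (fun _ => 1) (fun _ => Or.inl rfl)
    rwa [K_zero, mul_one] at this
  obtain ⟨f, hf⟩ : ∃ f : ℕ → ℂ, f = fun r : ℕ => dt (u i) (u ((i : ℤ) + (r : ℤ))) := ⟨_, rfl⟩
  have hf0 : f 0 = 0 := by
    rw [hf]
    show dt (u i) (u ((i : ℤ) + (0 : ℕ))) = 0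
    rw [Nat.cast_zero, add_zero]
    exact hself _
  have hf1 : f 1 = 1 ∨ f 1 = -1 := by
    rw [hf]
    exact hone i
  have hfr : ∀ r, f (r + 2) = z • f (r + 1) - c ((i : ℤ) + r + 1) • f r := by
    intro r
    have h2 := hrec (u i) ((i : ℤ) + r + 1)
    rw [add_sub_cancel_right] at h2
    rw [hf]
    show dt (u i) (u ((i : ℤ) + ((r + 2 : ℕ) : ℤ))) = z * dt (u i) (u ((i : ℤ) + ((r + 1 : ℕ) : ℤ))) -
      c ((i : ℤ) + r + 1) * dt (u i) (u ((i : ℤ) + r))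
    have e1 : (i : ℤ) + ((r + 2 : ℕ) : ℤ) = (i : ℤ) + r + 1 + 1 := by push_cast; ring
    have e2 : (i : ℤ) + ((r + 1 : ℕ) : ℤ) = (i : ℤ) + r + 1 := by push_cast; ring
    rw [e1, e2, h2]
  have hgoal : dt (u i) (u ((i + 1 + r : ℕ) : ℤ)) = f (r + 1) := by
    rw [hf]
    show dt (u i) (u ((i + 1 + r : ℕ) : ℤ)) = dt (u i) (u ((i : ℤ) + ((r + 1 : ℕ) : ℤ)))
    congr 2
    push_cast
    ring
  rw [hgoal]
  rcases r with _ | r
  · rw [zero_add, norm_mul, sgn_norm hf1, mul_one]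
    exact hz
  · have h3 := path_eq z (fun r => c ((i : ℤ) + r + 1)) f hfr r
    rw [hf0, smul_zero, sub_zero, smul_eq_mul] at h3
    rw [h3, ← mul_assoc, norm_mul, sgn_norm hf1, mul_one]
    exact hS (r + 1) _ (fun i => hc _)

/-- paths with given signs and first two terms -/
theorem exists_path {V : Type*} [AddCommGroup V] [Module ℂ V] (w : ℂ) (c : ℤ → ℂ)
    (hc : ∀ i, c i = 1 ∨ c i = -1) (x0 x1 : V) :
    ∃ U : ℤ → V, (∀ i, U (i + 1) = w • U i - c i • U (i - 1)) ∧ U 0 = x0 ∧ U 1 = x1 := by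
  have hcc : ∀ i (x : V), c i • c i • x = x := fun i x => by
    rw [smul_smul, sgn_sq (hc i), one_smul]
  obtain ⟨x, hx0, hx⟩ := exists_int_orbit (X := V × V) (fun j =>
    { toFun := fun p => (p.2, w • p.2 - c (j + 1) • p.1)
      invFun := fun p => (c (j + 1) • (w • p.1 - p.2), p.1)
      left_inv := fun p => by
        ext
        · show c (j + 1) • (w • p.2 - (w • p.2 - c (j + 1) • p.1)) = p.1
          rw [sub_sub_cancel, hcc]
        · rfl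
      right_inv := fun p => by
        ext
        · rfl
        · show w • p.1 - c (j + 1) • c (j + 1) • (w • p.1 - p.2) = p.2
          rw [hcc, sub_sub_cancel] }) (x0, x1)
  have h1 : ∀ j, (x (j + 1)).1 = (x j).2 := fun j => by rw [hx j]; rfl
  have h2 : ∀ j, (x (j + 1)).2 = w • (x j).2 - c (j + 1) • (x j).1 := fun j => by rw [hx j]; rfl
  refine ⟨fun j => (x j).1, fun i => ?_, by show (x 0).1 = x0; rw [hx0], ?_⟩
  · show (x (i + 1)).1 = w • (x i).1 - c i • (x (i - 1)).1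
    obtain ⟨j, rfl⟩ : ∃ j, i = j + 1 := ⟨i - 1, by ring⟩
    rw [h1 (j + 1), h2 j, add_sub_cancel_right, h1 j]
  · show (x 1).1 = x1
    have := h1 0
    rw [zero_add, hx0] at this
    exact this

/-- the nested points -/
def Yn (Λ : ℕ → ℂ) (l : ℕ → ℕ) (k : ℕ → ℕ → ℂ) (β : ℕ → ℂ) : ℕ → ℂ × ℂ
  | 0 => (0, 1)
  | m + 1 => K (Λ m) (k m) (l m + 1) • Yn Λ l k β m -
      (β m * K (Λ m) (fun i => k m (i + 1)) (l m)) • ((1, 0) : ℂ × ℂ)

/-- the sites -/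
def Sn (l : ℕ → ℕ) : ℕ → ℕ
  | 0 => 1
  | m + 1 => Sn l m * (l m + 2)

theorem Sn_pos (l : ℕ → ℕ) : ∀ m, 0 < Sn l m
  | 0 => one_pos
  | m + 1 => Nat.mul_pos (Sn_pos l m) (by omega)

theorem Sn_mono (l : ℕ → ℕ) : StrictMono (Sn l) := by
  apply strictMono_nat_of_lt_succ
  intro m
  show Sn l m < Sn l m * (l m + 2)
  have := Sn_pos l m
  nlinarith

/-- NESTED LIFTS -/
theorem nest {Λ : ℕ → ℂ} {l : ℕ → ℕ} {k : ℕ → ℕ → ℂ} (hk : ∀ m i, k m i = 1 ∨ k m i = -1)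
    (hΛ : ∀ m, Λ (m + 1) = Λ m * K (Λ m) (k m) (l m + 1)) {β : ℕ → ℂ}
    (hβ : ∀ m, β m = 1 ∨ β m = -1) : ∀ m : ℕ, (∀ j, j < m → K (Λ j) (k j) (l j + 1) ≠ 0) →
    ∀ (c' : ℤ → ℂ) (U : ℤ → ℂ × ℂ), (∀ i, c' i = 1 ∨ c' i = -1) →
      (∀ i, U (i + 1) = Λ m • U i - c' i • U (i - 1)) → U 0 = (1, 0) → U 1 = Yn Λ l k β m →
      ∃ (c : ℤ → ℂ) (u : ℤ → ℂ × ℂ), (∀ i, c i = 1 ∨ c i = -1) ∧
        (∀ i, u (i + 1) = Λ 0 • u i - c i • u (i - 1)) ∧ u 0 = (1, 0) ∧ u 1 = (0, 1) ∧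
        (∀ i, i ≤ m → u (Sn l i) = Yn Λ l k β i) ∧ ∀ j : ℤ, u (Sn l m * j) = U j
  | 0, _, c', U, hc', hU, hU0, hU1 => by
    refine ⟨c', U, hc', hU, hU0, hU1, fun i hi => ?_, fun j => ?_⟩
    · have : i = 0 := by omega
      subst this
      show U ((1 : ℕ) : ℤ) = _
      rw [Nat.cast_one]
      exact hU1
    · show U (((1 : ℕ) : ℤ) * j) = U j
      rw [Nat.cast_one, one_mul]
  | m + 1, hne, c', U, hc', hU, hU0, hU1 => by
    have hP := hne m (by omega)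
    obtain ⟨c1, hc1, _, u1, hu1, hu1U, hu11, _⟩ := lift (Λ m) (k m) (hk m) (l m) hP c' hc' (β m)
      (hβ m) U (fun j => by rw [← hΛ]; exact hU j)
    have e0 : u1 0 = (1, 0) := by
      have := hu1U 0
      rw [mul_zero] at this
      rw [this, hU0]
    have e1 : u1 1 = Yn Λ l k β m := by
      rw [hu11, hU1, hU0]
      show (K (Λ m) (k m) (l m + 1))⁻¹ • (K (Λ m) (k m) (l m + 1) • Yn Λ l k β m -
        (β m * K (Λ m) (fun i => k m (i + 1)) (l m)) • ((1, 0) : ℂ × ℂ) +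
        (β m * K (Λ m) (fun i => k m (i + 1)) (l m)) • ((1, 0) : ℂ × ℂ)) = _
      rw [sub_add_cancel, smul_smul, inv_mul_cancel₀ hP, one_smul]
    obtain ⟨c, u, hc, hu, hu0, hu1', huS, huU⟩ := nest hk hΛ hβ m (fun j hj => hne j (by omega))
      c1 u1 hc1 hu1 e0 e1
    have hmain : ∀ j : ℤ, u (Sn l (m + 1) * j) = U j := by
      intro j
      rw [← hu1U j, ← huU]
      congr 1
      show ((Sn l m * (l m + 2) : ℕ) : ℤ) * j = _
      push_cast
      ring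
    refine ⟨c, u, hc, hu, hu0, hu1', fun i hi => ?_, hmain⟩
    rcases hi.lt_or_eq with h | h
    · exact huS i (by omega)
    · rw [h, ← hU1]
      have := hmain 1
      rwa [mul_one] at this

theorem Yn_snd {Λ : ℕ → ℂ} {l : ℕ → ℕ} {k : ℕ → ℕ → ℂ}
    (hΛ : ∀ m, Λ (m + 1) = Λ m * K (Λ m) (k m) (l m + 1)) (β : ℕ → ℂ) : ∀ m : ℕ,
    Λ 0 * (Yn Λ l k β m).2 = Λ m
  | 0 => by
    show Λ 0 * 1 = Λ 0
    rw [mul_one]
  | m + 1 => by
    have ih := Yn_snd hΛ β m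
    rw [hΛ m]
    show Λ 0 * (K (Λ m) (k m) (l m + 1) * (Yn Λ l k β m).2 -
      (β m * K (Λ m) (fun i => k m (i + 1)) (l m)) * 0) = _
    calc Λ 0 * (K (Λ m) (k m) (l m + 1) * (Yn Λ l k β m).2 -
          (β m * K (Λ m) (fun i => k m (i + 1)) (l m)) * 0)
        = (Λ 0 * (Yn Λ l k β m).2) * K (Λ m) (k m) (l m + 1) := by ring
      _ = _ := by rw [ih]

/-- all values of the orbit have modulus at least one -/
theorem lam_ge {Λ : ℕ → ℂ} {l : ℕ → ℕ} {k : ℕ → ℕ → ℂ} (hk : ∀ m i, k m i = 1 ∨ k m i = -1)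
    (hΛ : ∀ m, Λ (m + 1) = Λ m * K (Λ m) (k m) (l m + 1))
    (hS : ∀ (n : ℕ) (q : ℕ → ℂ), (∀ i, q i = 1 ∨ q i = -1) → 1 ≤ ‖Λ 0 * K (Λ 0) q n‖) :
    ∀ m, 1 ≤ ‖Λ m‖ := by
  intro m
  induction m using Nat.strong_induction_on with
  | _ m ih =>
    rcases m with _ | m
    · have := hS 0 (fun _ => 1) (fun _ => Or.inl rfl)
      rwa [K_zero, mul_one] at this
    · have hne : ∀ j, j < m → K (Λ j) (k j) (l j + 1) ≠ 0 := by
        intro j hj h0
        have h1 := ih (j + 1) (by omega)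
        rw [hΛ j, h0, mul_zero, norm_zero] at h1
        linarith
      obtain ⟨c', hc'⟩ : ∃ c' : ℤ → ℂ, c' = fun i => Nat.casesOn (i - 1).toNat 1 (k m) := ⟨_, rfl⟩
      have hc's : ∀ i, c' i = 1 ∨ c' i = -1 := by
        intro i
        rw [hc']
        show (Nat.casesOn (i - 1).toNat 1 (k m) : ℂ) = 1 ∨ (Nat.casesOn (i - 1).toNat 1 (k m) : ℂ) = -1
        rcases (i - 1).toNat with _ | r
        · exact Or.inl rfl
        · exact hk m r
      have hc'1 : c' ((0 : ℕ) + 1) = 1 := by subst hc'; rfl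
      have hc'2 : ∀ r : ℕ, c' (((r + 1 : ℕ) : ℤ) + 1) = k m r := by
        intro r
        subst hc'
        show (Nat.casesOn (((r + 1 : ℕ) : ℤ) + 1 - 1).toNat 1 (k m) : ℂ) = k m r
        rw [add_sub_cancel_right, Int.toNat_natCast]
      obtain ⟨U, hU, hU0, hU1⟩ := exists_path (Λ m) c' hc's ((1, 0) : ℂ × ℂ)
        (Yn Λ l k (fun _ => 1) m)
      obtain ⟨c, u, hc, hu, hu0, hu1, huS, huU⟩ := nest hk hΛ (β := fun _ => 1)
        (fun _ => Or.inl rfl) m hne c' U hc's hU hU0 hU1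
      have hUN : U ((l m + 2 : ℕ) : ℤ) = Yn Λ l k (fun _ => 1) (m + 1) := by
        have h := path_eq (Λ m) (fun i : ℕ => c' ((i : ℤ) + 1)) (fun i : ℕ => U (i : ℤ))
          (fun i => by
            show U ((i + 2 : ℕ) : ℤ) = Λ m • U ((i + 1 : ℕ) : ℤ) - c' ((i : ℤ) + 1) • U i
            have := hU ((i : ℤ) + 1)
            rw [add_sub_cancel_right] at this
            push_cast
            rw [← this]
            congr 1) (l m)
        have e1 : (fun i : ℕ => c' (((i + 1 : ℕ) : ℤ) + 1)) = k m := funext hc'2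
        have e2 : (fun i : ℕ => c' (((i + 2 : ℕ) : ℤ) + 1)) = fun i => k m (i + 1) :=
          funext fun i => hc'2 (i + 1)
        rw [e1, e2, hc'1] at h
        have h3 : U ((l m + 2 : ℕ) : ℤ) = K (Λ m) (k m) (l m + 1) • U ((1 : ℕ) : ℤ) -
          (1 * K (Λ m) (fun i => k m (i + 1)) (l m)) • U ((0 : ℕ) : ℤ) := h
        rw [Nat.cast_one, Nat.cast_zero, hU0, hU1] at h3
        rw [h3]
        rfl
      have h1 := sep hS hc hu hu0 hu1 0 (Sn l m * (l m + 2))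
        (Nat.mul_pos (Sn_pos l m) (by omega))
      have h2 : u ((Sn l m * (l m + 2) : ℕ) : ℤ) = Yn Λ l k (fun _ => 1) (m + 1) := by
        rw [← hUN, ← huU]
        congr 1
      rw [h2, Nat.cast_zero, hu0] at h1
      have h3 : dt (1, 0) (Yn Λ l k (fun _ => 1) (m + 1)) = (Yn Λ l k (fun _ => 1) (m + 1)).2 := by
        unfold dt
        ring
      rw [h3, Yn_snd hΛ] at h1
      exact h1

/-- THEOREM: a point with a bounded orbit under a sequence of renormalisation polynomials is in the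
interior. -/
theorem bounded_orbit {Λ : ℕ → ℂ} {l : ℕ → ℕ} {k : ℕ → ℕ → ℂ} (hk : ∀ m i, k m i = 1 ∨ k m i = -1)
    (hΛ : ∀ m, Λ (m + 1) = Λ m * K (Λ m) (k m) (l m + 1)) {L : ℕ} (hl : ∀ m, l m ≤ L) {R : ℝ}
    (hR : ∀ m, ‖Λ m‖ ≤ R) : Λ 0 ∈ interior (closure BPs) := by
  by_contra hcon
  have hS : ∀ (n : ℕ) (q : ℕ → ℂ), (∀ i, q i = 1 ∨ q i = -1) → 1 ≤ ‖Λ 0 * K (Λ 0) q n‖ :=
    fun n q hq => large hcon n q hq
  have hge := lam_ge hk hΛ hS
  have hR1 : 1 ≤ R := (hge 0).trans (hR 0)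
  have hΛ0 : ∀ m, Λ m ≠ 0 := fun m h0 => by
    have := hge m
    rw [h0, norm_zero] at this
    linarith
  have hne : ∀ j, K (Λ j) (k j) (l j + 1) ≠ 0 := by
    intro j h0
    have h1 := hΛ0 (j + 1)
    rw [hΛ j, h0, mul_zero] at h1
    exact h1 rfl
  obtain ⟨g, hg⟩ : ∃ g : ℕ → ℂ, g = fun m => K (Λ m) (fun i => k m (i + 1)) (l m) / Λ (m + 1) :=
    ⟨_, rfl⟩
  have hgb : ∀ m, ‖g m‖ ≤ (R + 1) ^ L := by
    intro m
    rw [hg]
    show ‖K (Λ m) (fun i => k m (i + 1)) (l m) / Λ (m + 1)‖ ≤ _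
    rw [norm_div]
    have h1 := K_norm_le (fun i => (sgn_norm (hk m (i + 1))).le) (Λ m) (l m)
    refine (div_le_self (norm_nonneg _) (hge (m + 1))).trans (h1.trans ?_)
    have h2 := hR m
    have h3 := norm_nonneg (Λ m)
    calc (‖Λ m‖ + 1) ^ (l m) ≤ (R + 1) ^ (l m) :=
          pow_le_pow_left₀ (by positivity) (by linarith) _
      _ ≤ (R + 1) ^ L := pow_le_pow_right₀ (by linarith) (hl m)
  obtain ⟨M, hM⟩ := packing (2 * (R + 1) ^ L) (1 / R ^ 2) (by positivity)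
  obtain ⟨s, hs, hsb⟩ := balance M g hgb
  obtain ⟨U, hU, hU0, hU1⟩ := exists_path (Λ M) (fun _ => 1) (fun _ => Or.inl rfl)
    ((1, 0) : ℂ × ℂ) (Yn Λ l k s M)
  obtain ⟨c, u, hc, hu, hu0, hu1, huS, huU⟩ := nest hk hΛ hs M (fun j _ => hne j) (fun _ => 1) U
    (fun _ => Or.inl rfl) hU hU0 hU1
  obtain ⟨a, ha⟩ : ∃ a : ℕ → ℂ, a = fun m => (Yn Λ l k s m).1 / Λ m := ⟨_, rfl⟩
  have ha' : ∀ m, (Yn Λ l k s m).1 = a m * Λ m := fun m => by
    rw [ha]
    exact (div_mul_cancel₀ _ (hΛ0 m)).symm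
  have hsum : ∀ m, a m = -∑ j ∈ Finset.range m, s j * g j := by
    intro m
    induction m with
    | zero =>
      rw [ha, Finset.sum_range_zero, neg_zero]
      show (0 : ℂ) / Λ 0 = 0
      exact zero_div _
    | succ m ih =>
      rw [Finset.sum_range_succ, neg_add, ← ih]
      have h1 : (Yn Λ l k s (m + 1)).1 = K (Λ m) (k m) (l m + 1) * (Yn Λ l k s m).1 -
        (s m * K (Λ m) (fun i => k m (i + 1)) (l m)) * 1 := rfl
      have h2 : a (m + 1) * Λ (m + 1) = a m * Λ (m + 1) -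
          s m * K (Λ m) (fun i => k m (i + 1)) (l m) := by
        rw [← ha', h1, ha' m, hΛ m]
        ring
      have h3 := hΛ0 (m + 1)
      rw [hg]
      show a (m + 1) = a m + -(s m * (K (Λ m) (fun i => k m (i + 1)) (l m) / Λ (m + 1)))
      field_simp
      rw [h2]
      ring
  obtain ⟨i, j, hij, hjM, hlt⟩ := hM a (fun m hm => by
    rw [hsum, norm_neg]
    exact hsb m hm)
  have h1 := sep hS hc hu hu0 hu1 (Sn l i) (Sn l j) (Sn_mono l hij)
  rw [huS i (by omega), huS j hjM] at h1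
  have h2 : Λ 0 * dt (Yn Λ l k s i) (Yn Λ l k s j) = Λ i * Λ j * (a i - a j) := by
    have e1 := Yn_snd hΛ s i
    have e2 := Yn_snd hΛ s j
    unfold dt
    rw [ha' i, ha' j]
    calc Λ 0 * (a i * Λ i * (Yn Λ l k s j).2 - (Yn Λ l k s i).2 * (a j * Λ j))
        = a i * Λ i * (Λ 0 * (Yn Λ l k s j).2) - (Λ 0 * (Yn Λ l k s i).2) * (a j * Λ j) := by ring
      _ = a i * Λ i * Λ j - Λ i * (a j * Λ j) := by rw [e1, e2]
      _ = _ := by ring
  rw [h2, norm_mul, norm_mul] at h1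
  have h3 : ‖Λ i‖ * ‖Λ j‖ * ‖a i - a j‖ ≤ R * R * ‖a i - a j‖ := by
    apply mul_le_mul_of_nonneg_right _ (norm_nonneg _)
    exact mul_le_mul (hR i) (hR j) (norm_nonneg _) (by linarith)
  have h4 : R * R * ‖a i - a j‖ < R * R * (1 / R ^ 2) :=
    mul_lt_mul_of_pos_left hlt (by positivity)
  have h5 : R * R * (1 / R ^ 2) = 1 := by
    field_simp
  linarith

end

end Pool.Agent.FZR
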