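import Pool.Agent.helper81.FZ.Nest

/-!
# The theorem on bounded orbits for slowly growing degrees (MP_1b8d20_an)
-/

set_option autoImplicit false

namespace Pool.Agent.FZR

open Filter Topology Pool.Agent.FZ

noncomputable section

/-- the complement of the interior is invariant -/
theorem not_mem_step {z : ℂ} (hz : z ∉ interior (closure BPs)) (n : ℕ) (q : ℕ → ℂ)
    (hq : ∀ i, q i = 1 ∨ q i = -1) : z * K z q n ∉ interior (closure BPs) := by
  intro h
  apply hz
  rw [mem_interior]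
  refine ⟨{w | w * K w q n ∈ interior (closure BPs)},
    fun w hw => open_pull hq n (interior_subset hw), ?_, h⟩
  exact isOpen_interior.preimage (continuous_id.mul (K_differentiable q n).continuous)

/-- the telescoping bound -/
theorem ratio_bound {w : ℂ} {q : ℕ → ℂ} (hq : ∀ i, q i = 1 ∨ q i = -1)
    (hS : ∀ n, 1 ≤ ‖w * K w q n‖) (l : ℕ) :
    ‖K w (fun i => q (i + 1)) l / (w * K w q (l + 1))‖ ≤ (l + 1) * ‖w‖ := by
  have hK : ∀ n, K w q n ≠ 0 := by
    intro n h0
    have := hS n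
    rw [h0, mul_zero, norm_zero] at this
    linarith
  have hw : w ≠ 0 := by
    intro h0
    have := hS 0
    rw [h0, zero_mul, norm_zero] at this
    linarith
  have hinv : ∀ n, ‖(K w q n)⁻¹‖ ≤ ‖w‖ := by
    intro n
    have h1 := hS n
    rw [norm_mul] at h1
    rw [norm_inv, inv_le_comm₀ (norm_pos_iff.2 (hK n)) (norm_pos_iff.2 hw)]
    rw [inv_le_iff_one_le_mul₀ (norm_pos_iff.2 hw), mul_comm]
    exact h1
  -- the second solution
  obtain ⟨e, he⟩ : ∃ e : ℕ → ℂ, e = fun n => Nat.casesOn n 0 (fun n => K w (fun i => q (i + 1)) n) :=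
    ⟨_, rfl⟩
  have he0 : e 0 = 0 := by subst he; rfl
  have he1 : ∀ n, e (n + 1) = K w (fun i => q (i + 1)) n := fun n => by subst he; rfl
  have her : ∀ n, e (n + 2) = w * e (n + 1) - q n * e n := by
    intro n
    rcases n with _ | n
    · rw [he1, he1, he0, mul_zero, sub_zero, K_one, K_zero, mul_one]
    · rw [he1, he1, he1]
      rfl
  have hdet : ∀ n, e (n + 1) * K w q n - e n * K w q (n + 1) = ∏ i ∈ Finset.range n, q i := by
    intro n
    induction n with
    | zero => rw [he1, he0, K_zero, K_zero, Finset.prod_range_zero]; ring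
    | succ n ih =>
      rw [her, K_add, Finset.prod_range_succ, ← ih]
      ring
  have hstep : ∀ n, e (n + 1) / K w q (n + 1) = e n / K w q n +
      (∏ i ∈ Finset.range n, q i) * ((K w q n)⁻¹ * (K w q (n + 1))⁻¹) := by
    intro n
    rw [← hdet n]
    have h1 := hK n
    have h2 := hK (n + 1)
    field_simp
    ring
  have hb : ∀ n, ‖e n / K w q n‖ ≤ n * (‖w‖ * ‖w‖) := by
    intro n
    induction n with
    | zero => rw [he0, zero_div, norm_zero]; simp
    | succ n ih =>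
      rw [hstep]
      refine (norm_add_le _ _).trans ?_
      rw [norm_mul, sgn_norm (sgn_prod hq n), one_mul, norm_mul]
      have h1 := mul_le_mul (hinv n) (hinv (n + 1)) (norm_nonneg _) (norm_nonneg _)
      push_cast
      linarith
  have h1 := hb (l + 1)
  rw [he1, norm_div] at h1
  rw [norm_div, norm_mul]
  have hw0 := norm_pos_iff.2 hw
  rw [mul_comm ‖w‖, ← div_div, div_le_iff₀ hw0]
  push_cast at h1
  linarith

/-- THEOREM: a point with a bounded orbit under a sequence of renormalisation polynomials of slowly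
growing degrees is in the interior. -/
theorem bounded_orbit2 {Λ : ℕ → ℂ} {l : ℕ → ℕ} {k : ℕ → ℕ → ℂ}
    (hk : ∀ m i, k m i = 1 ∨ k m i = -1) (hΛ : ∀ m, Λ (m + 1) = Λ m * K (Λ m) (k m) (l m + 1))
    (hl : ∀ ε : ℝ, 0 < ε → ∃ M : ℕ, 0 < M ∧ ∀ m, m < M → ((l m + 1 : ℕ) : ℝ) ≤ ε * √M) {R : ℝ}
    (hR : ∀ m, ‖Λ m‖ ≤ R) : Λ 0 ∈ interior (closure BPs) := by
  by_contra hcon
  have hout : ∀ m, Λ m ∉ interior (closure BPs) := by
    intro m
    induction m with
    | zero => exact hcon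
    | succ m ih =>
      rw [hΛ m]
      exact not_mem_step ih _ _ (hk m)
  have hS : ∀ m (n : ℕ) (q : ℕ → ℂ), (∀ i, q i = 1 ∨ q i = -1) → 1 ≤ ‖Λ m * K (Λ m) q n‖ :=
    fun m n q hq => large (hout m) n q hq
  have hge : ∀ m, 1 ≤ ‖Λ m‖ := by
    intro m
    have := hS m 0 (fun _ => 1) (fun _ => Or.inl rfl)
    rwa [K_zero, mul_one] at this
  have hR1 : 1 ≤ R := (hge 0).trans (hR 0)
  have hR0 : 0 < R := by linarith
  have hΛ0 : ∀ m, Λ m ≠ 0 := fun m h0 => by
    have := hge m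
    rw [h0, norm_zero] at this
    linarith
  have hne : ∀ j, K (Λ j) (k j) (l j + 1) ≠ 0 := by
    intro j h0
    have h1 := hΛ0 (j + 1)
    rw [hΛ j, h0, mul_zero] at h1
    exact h1 rfl
  obtain ⟨M, hM0, hM⟩ := hl (1 / (8 * R ^ 3)) (by positivity)
  obtain ⟨G, hG⟩ : ∃ G : ℝ, G = √M / (8 * R ^ 2) := ⟨_, rfl⟩
  have hG0 : 0 ≤ G := by rw [hG]; positivity
  obtain ⟨g, hg⟩ : ∃ g : ℕ → ℂ, g = fun m => if m < M then
      K (Λ m) (fun i => k m (i + 1)) (l m) / Λ (m + 1) else 0 := ⟨_, rfl⟩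
  have hg1 : ∀ m, m < M → g m = K (Λ m) (fun i => k m (i + 1)) (l m) / Λ (m + 1) := fun m hm => by
    rw [hg]; exact if_pos hm
  have hgb : ∀ m, ‖g m‖ ≤ G := by
    intro m
    by_cases hm : m < M
    · rw [hg1 m hm, hΛ m]
      refine (ratio_bound (hk m) (fun n => hS m n _ (hk m)) (l m)).trans ?_
      have h1 := hM m hm
      push_cast at h1
      have h2 : 1 / (8 * R ^ 3) * √M * R = G := by
        rw [hG]
        field_simp
      rw [← h2]
      exact mul_le_mul h1 (hR m) (norm_nonneg _) (by positivity)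
    · have : g m = 0 := by rw [hg]; exact if_neg hm
      rw [this, norm_zero]
      exact hG0
  obtain ⟨s, hs, hsb⟩ := balance M g hgb
  obtain ⟨U, hU, hU0, hU1⟩ := exists_path (Λ M) (fun _ => 1) (fun _ => Or.inl rfl)
    ((1, 0) : ℂ × ℂ) (Yn Λ l k s M)
  obtain ⟨c, u, hc, hu, hu0, hu1, huS, huU⟩ := nest hk hΛ hs M (fun j _ => hne j) (fun _ => 1) U
    (fun _ => Or.inl rfl) hU hU0 hU1
  obtain ⟨a, ha⟩ : ∃ a : ℕ → ℂ, a = fun m => (Yn Λ l k s m).1 / Λ m := ⟨_, rfl⟩
  have ha' : ∀ m, (Yn Λ l k s m).1 = a m * Λ m := fun m => by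
    rw [ha]
    exact (div_mul_cancel₀ _ (hΛ0 m)).symm
  have hsum : ∀ m, m ≤ M → a m = -∑ j ∈ Finset.range m, s j * g j := by
    intro m
    induction m with
    | zero =>
      intro _
      rw [ha, Finset.sum_range_zero, neg_zero]
      show (0 : ℂ) / Λ 0 = 0
      exact zero_div _
    | succ m ih =>
      intro hm
      rw [Finset.sum_range_succ, neg_add, ← ih (by omega), hg1 m (by omega)]
      have h1 : (Yn Λ l k s (m + 1)).1 = K (Λ m) (k m) (l m + 1) * (Yn Λ l k s m).1 -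
        (s m * K (Λ m) (fun i => k m (i + 1)) (l m)) * 1 := rfl
      have h2 : a (m + 1) * Λ (m + 1) = a m * Λ (m + 1) -
          s m * K (Λ m) (fun i => k m (i + 1)) (l m) := by
        rw [← ha', h1, ha' m, hΛ m]
        ring
      have h3 := hΛ0 (m + 1)
      field_simp
      rw [h2]
      ring
  have hdiff : ∀ i j, i < j → j ≤ M → 1 / R ^ 2 ≤ ‖a i - a j‖ := by
    intro i j hij hjM
    have h1 := sep (hS 0) hc hu hu0 hu1 (Sn l i) (Sn l j) (Sn_mono l hij)
    rw [huS i (by omega), huS j hjM] at h1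
    have h2 : Λ 0 * dt (Yn Λ l k s i) (Yn Λ l k s j) = Λ i * Λ j * (a i - a j) := by
      have e1 := Yn_snd hΛ s i
      have e2 := Yn_snd hΛ s j
      unfold dt
      rw [ha' i, ha' j]
      calc Λ 0 * (a i * Λ i * (Yn Λ l k s j).2 - (Yn Λ l k s i).2 * (a j * Λ j))
          = a i * Λ i * (Λ 0 * (Yn Λ l k s j).2) - (Λ 0 * (Yn Λ l k s i).2) * (a j * Λ j) := by ring
        _ = a i * Λ i * Λ j - Λ i * (a j * Λ j) := by rw [e1, e2]
        _ = _ := by ring
    rw [h2, norm_mul, norm_mul] at h1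
    have h3 : ‖Λ i‖ * ‖Λ j‖ * ‖a i - a j‖ ≤ R * R * ‖a i - a j‖ := by
      apply mul_le_mul_of_nonneg_right _ (norm_nonneg _)
      exact mul_le_mul (hR i) (hR j) (norm_nonneg _) (by linarith)
    rw [div_le_iff₀ (by positivity)]
    linarith
  have hpack := pack2 (Finset.range (M + 1)) a (2 * G) (1 / R ^ 2) (by positivity) (by positivity)
    (fun m hm => by
      rw [Finset.mem_range] at hm
      rw [hsum m (by omega), norm_neg]
      exact hsb m (by omega))
    (fun i hi j hj hij => by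
      rw [Finset.mem_range] at hi hj
      rcases lt_or_gt_of_ne hij with h | h
      · exact hdiff i j h (by omega)
      · rw [norm_sub_rev]
        exact hdiff j i h (by omega))
  rw [Finset.card_range] at hpack
  push_cast at hpack
  have h4 : ((M : ℝ) + 1) ≤ (√M / 2 + 1) ^ 2 := by
    have e1 : (2 * (2 * G) + 1 / R ^ 2) = (√M / 2 + 1) * (1 / R ^ 2) := by
      rw [hG]
      ring
    rw [e1, mul_pow] at hpack
    exact le_of_mul_le_mul_right hpack (by positivity)
  have hM1 : (8 : ℝ) ≤ √M := by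
    have h5 := hM 0 hM0
    have h6 : (1 : ℝ) ≤ ((l 0 + 1 : ℕ) : ℝ) := by
      push_cast
      linarith [(Nat.cast_nonneg (l 0) : (0 : ℝ) ≤ (l 0 : ℝ))]
    have h7 : 1 ≤ 1 / (8 * R ^ 3) * √M := h6.trans h5
    rw [one_div, inv_mul_eq_div, le_div_iff₀ (by positivity), one_mul] at h7
    have h8 : 1 ≤ R ^ 3 := one_le_pow₀ hR1
    linarith
  have hsq : √(M : ℝ) ^ 2 = M := Real.sq_sqrt (Nat.cast_nonneg M)
  nlinarith

end

end Pool.Agent.FZR
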