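import Pool.Agent.helper30.FZ.Operator
import Pool.Agent.helper81.FZ.Lift

/-!
# Points with bounded solutions for periodic sign sequences (MP_1b8d20_an)
-/

set_option autoImplicit false

namespace Pool.Agent.FZR

open Filter Topology Pool.Agent.FZ

noncomputable section

/-- `w` has a bounded nonzero solution for a periodic sign sequence -/
def BP (w : ℂ) : Prop := ∃ c : ℤ → ℂ, (∀ i, c i = 1 ∨ c i = -1) ∧ IsPer c ∧ ∃ φ : ℤ → ℂ,
  (∀ i, φ (i + 1) = w • φ i - c i • φ (i - 1)) ∧ (∃ B, ∀ i, ‖φ i‖ ≤ B) ∧ ∃ i, φ i ≠ 0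

theorem BP_mem {w : ℂ} (h : BP w) :
    w ∈ {z : ℂ | ∃ c : ℤ → ℂ, IsSignSeq c ∧ IsPer c ∧ z ∈ hopSpec c} := by
  obtain ⟨c, hc, ⟨p, hp, hper⟩, φ, hφ, ⟨B, hB⟩, i0, hi0⟩ := h
  have hc' : ∀ n, c (n + i0) = 1 ∨ c (n + i0) = -1 := fun n => hc _
  obtain ⟨T, hT⟩ := exists_op (fun n => c (n + i0)) hc'
  refine ⟨fun n => c (n + i0), hc', ⟨p, hp, fun n => ?_⟩, T, fun x n => hT x n, ?_⟩
  · show c (n + p + i0) = c (n + i0)
    rw [← hper (n + i0)]
    congr 1
    ring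
  · refine mem_spectrum_of_bounded (φ := fun n => φ (n + i0)) hc' (fun m => ?_)
      (fun m => hB (m + i0)) ?_ hT
    · show φ (m + 1 + i0) + c (m + i0) * φ (m - 1 + i0) = w * φ (m + i0)
      have h1 := hφ (m + i0)
      rw [smul_eq_mul, smul_eq_mul] at h1
      have e1 : m + 1 + i0 = m + i0 + 1 := by ring
      have e2 : m - 1 + i0 = m + i0 - 1 := by ring
      rw [e1, e2, h1]
      ring
    · show φ (0 + i0) ≠ 0
      rw [zero_add]
      exact hi0

theorem BP_lift {w : ℂ} {q : ℕ → ℂ} (hq : ∀ i, q i = 1 ∨ q i = -1) : ∀ n : ℕ, K w q n ≠ 0 →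
    BP (w * K w q n) → BP w
  | 0, _, h => by rwa [K_zero, mul_one] at h
  | l + 1, hP, h => by
    obtain ⟨c', hc', hper, U, hU, ⟨B, hB⟩, i0, hi0⟩ := h
    obtain ⟨c, hc, hper', u, hu, huU, _, hub⟩ := lift w q hq l hP c' hc' 1 (Or.inl rfl) U hU
    obtain ⟨B', hB'⟩ := hub B hB
    exact ⟨c, hc, hper' hper, u, hu, ⟨B', hB'⟩, ((l + 2 : ℕ) : ℤ) * i0, by rw [huU]; exact hi0⟩

theorem BP_real {x : ℝ} (h1 : -2 ≤ x) (h2 : x ≤ 2) : BP (x : ℂ) := by
  obtain ⟨θ, hθ⟩ : ∃ θ : ℝ, 2 * Real.cos θ = x :=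
    ⟨Real.arccos (x / 2), by rw [Real.cos_arccos (by linarith) (by linarith)]; ring⟩
  refine ⟨fun _ => 1, fun _ => Or.inl rfl, ⟨1, one_pos, fun _ => rfl⟩,
    fun m => ((Real.cos (m * θ) : ℝ) : ℂ), fun i => ?_, ⟨1, fun i => ?_⟩, 0, ?_⟩
  · rw [smul_eq_mul, smul_eq_mul, one_mul, ← hθ]
    have e : Real.cos (((i + 1 : ℤ) : ℝ) * θ) = 2 * Real.cos θ * Real.cos (i * θ)
        - Real.cos (((i - 1 : ℤ) : ℝ) * θ) := by
      push_cast
      rw [add_mul, sub_mul, one_mul, Real.cos_add, Real.cos_sub]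
      ring
    show ((Real.cos (((i + 1 : ℤ) : ℝ) * θ) : ℝ) : ℂ) = ((2 * Real.cos θ : ℝ) : ℂ) *
      ((Real.cos (i * θ) : ℝ) : ℂ) - ((Real.cos (((i - 1 : ℤ) : ℝ) * θ) : ℝ) : ℂ)
    rw [e]
    push_cast
    ring
  · rw [Complex.norm_real, Real.norm_eq_abs]
    exact Real.abs_cos_le_one _
  · simp

theorem BP_sq {w : ℂ} (hw : w ≠ 0) (h : BP (w * w)) : BP w :=
  BP_lift (q := fun _ => 1) (fun _ => Or.inl rfl) 1 hw h

theorem BP_pow : ∀ (k : ℕ) (w : ℂ), w ≠ 0 → BP (w ^ (2 ^ k)) → BP w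
  | 0, w, _, h => by rwa [pow_zero, pow_one] at h
  | k + 1, w, hw, h => by
    apply BP_sq hw
    apply BP_pow k (w * w) (mul_ne_zero hw hw)
    rwa [← pow_two, ← pow_mul, ← pow_succ']

/-- the nonzero points -/
def BPs : Set ℂ := {w | w ≠ 0 ∧ BP w}

theorem disc_sub {w : ℂ} (hw : ‖w‖ < 1) : w ∈ closure BPs := by
  rcases eq_or_ne w 0 with rfl | hw0
  · have h1 : Tendsto (fun n : ℕ => ((1 / ((n : ℝ) + 1) : ℝ) : ℂ)) atTop (𝓝 0) := by
      have h := tendsto_one_div_add_atTop_nhds_zero_nat (𝕜 := ℝ)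
      have h2 := (Complex.continuous_ofReal.tendsto 0).comp h
      rw [Complex.ofReal_zero] at h2
      exact h2
    refine mem_closure_of_tendsto h1 (Eventually.of_forall fun n => ⟨?_, ?_⟩)
    · have : (0 : ℝ) < 1 / ((n : ℝ) + 1) := by positivity
      exact_mod_cast this.ne'
    · have h2 : (0 : ℝ) < 1 / ((n : ℝ) + 1) := by positivity
      have h3 : 1 / ((n : ℝ) + 1) ≤ 1 := by
        rw [div_le_one (by positivity)]
        linarith [(Nat.cast_nonneg n : (0 : ℝ) ≤ n)]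
      exact BP_real (by linarith) (by linarith)
  · obtain ⟨r, hr⟩ : ∃ r : ℝ, r = ‖w‖ := ⟨_, rfl⟩
    have hr0 : 0 < r := by rw [hr]; exact norm_pos_iff.2 hw0
    obtain ⟨t, ht⟩ : ∃ t : ℝ, t = Complex.arg w / (2 * Real.pi) + 1 := ⟨_, rfl⟩
    have hpi := Real.pi_pos
    have ht0 : 0 ≤ t := by
      rw [ht]
      have h1 := Complex.neg_pi_lt_arg w
      have h2 : -(1 / 2) ≤ Complex.arg w / (2 * Real.pi) := by
        rw [le_div_iff₀ (by positivity)]
        linarith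
      linarith
    have hfl : Tendsto (fun k : ℕ => (⌊t * (2 : ℝ) ^ k⌋₊ : ℝ) / 2 ^ k) atTop (𝓝 t) :=
      (tendsto_nat_floor_mul_div_atTop ht0).comp
        (tendsto_pow_atTop_atTop_of_one_lt (by norm_num : (1 : ℝ) < 2))
    have hw1 : w = (r : ℂ) * Complex.exp ((2 * Real.pi * t : ℝ) * Complex.I) := by
      have e : (2 * Real.pi * t : ℝ) = Complex.arg w + 2 * Real.pi := by
        rw [ht]
        field_simp
      rw [e, hr]
      push_cast
      rw [add_mul, Complex.exp_add, Complex.exp_two_pi_mul_I, mul_one]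
      exact (Complex.norm_mul_exp_arg_mul_I w).symm
    have hlim : Tendsto (fun k : ℕ => (r : ℂ) * Complex.exp ((2 * Real.pi *
        ((⌊t * (2 : ℝ) ^ k⌋₊ : ℝ) / 2 ^ k) : ℝ) * Complex.I)) atTop (𝓝 w) := by
      have hcont : Continuous (fun s : ℝ => (r : ℂ) * Complex.exp ((2 * Real.pi * s : ℝ)
          * Complex.I)) := by fun_prop
      have := (hcont.tendsto t).comp hfl
      rw [← hw1] at this
      exact this
    refine mem_closure_of_tendsto hlim (Eventually.of_forall fun k => ?_)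
    have hne : (r : ℂ) * Complex.exp ((2 * Real.pi *
        ((⌊t * (2 : ℝ) ^ k⌋₊ : ℝ) / 2 ^ k) : ℝ) * Complex.I) ≠ 0 :=
      mul_ne_zero (by exact_mod_cast hr0.ne') (Complex.exp_ne_zero _)
    refine ⟨hne, BP_pow k _ hne ?_⟩
    have e : ((r : ℂ) * Complex.exp ((2 * Real.pi *
        ((⌊t * (2 : ℝ) ^ k⌋₊ : ℝ) / 2 ^ k) : ℝ) * Complex.I)) ^ (2 ^ k) = ((r ^ (2 ^ k) : ℝ) : ℂ) := by
      rw [mul_pow, ← Complex.exp_nat_mul]
      have e2 : ((2 ^ k : ℕ) : ℂ) * ((2 * Real.pi * ((⌊t * (2 : ℝ) ^ k⌋₊ : ℝ) / 2 ^ k) : ℝ)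
          * Complex.I) = (⌊t * (2 : ℝ) ^ k⌋₊ : ℂ) * (2 * Real.pi * Complex.I) := by
        push_cast
        field_simp
      rw [e2, Complex.exp_nat_mul, Complex.exp_two_pi_mul_I, one_pow, mul_one]
      push_cast
      rfl
    rw [e]
    have h1 : 0 < r ^ (2 ^ k) := by positivity
    have h2 : r ^ (2 ^ k) ≤ 1 := pow_le_one₀ hr0.le (by rw [hr]; exact hw.le)
    exact BP_real (by linarith) (by linarith)

theorem open_pull {q : ℕ → ℂ} (hq : ∀ i, q i = 1 ∨ q i = -1) (n : ℕ) {z : ℂ}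
    (h : z * K z q n ∈ closure BPs) : z ∈ closure BPs := by
  obtain ⟨g, hg⟩ : ∃ g : ℂ → ℂ, g = fun w => w * K w q n := ⟨_, rfl⟩
  have hgd : Differentiable ℂ g := by
    rw [hg]
    exact differentiable_id.mul (K_differentiable q n)
  have hg0 : g 0 = 0 := by rw [hg]; exact zero_mul _
  have hg2 : g 2 ≠ 0 := by
    rw [hg]
    have h1 := (K_two_ne (fun i => sgn_norm (hq i)) n).1
    have h2 : K 2 q n ≠ 0 := by
      intro h0
      rw [h0, norm_zero] at h1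
      linarith
    exact mul_ne_zero (by norm_num) h2
  have hgz : g z ∈ closure BPs := by rw [hg]; exact h
  rcases (hgd.analyticAt z).eventually_constant_or_nhds_le_map_nhds with h1 | h1
  · exfalso
    have h2 : AnalyticOnNhd ℂ g Set.univ := fun w _ => hgd.analyticAt w
    have h3 : AnalyticOnNhd ℂ (fun _ : ℂ => g z) Set.univ := fun w _ => analyticAt_const
    have h4 := h2.eq_of_eventuallyEq h3 h1
    have h5 := congrFun h4 0
    have h6 := congrFun h4 2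
    rw [hg0] at h5
    rw [← h5] at h6
    exact hg2 h6
  · rw [mem_closure_iff_nhds] at hgz ⊢
    intro U hU
    obtain ⟨y, ⟨w, hw, hwy⟩, hy0, hyB⟩ := hgz (g '' U) (h1 (image_mem_map hU))
    rw [← hwy, hg] at hy0 hyB
    have h2 : w ≠ 0 := fun h0 => hy0 (by show w * K w q n = 0; rw [h0, zero_mul])
    have h3 : K w q n ≠ 0 := fun h0 => hy0 (by show w * K w q n = 0; rw [h0, mul_zero])
    exact ⟨w, hw, h2, BP_lift hq n h3 hyB⟩

/-- outside the interior of the closure all continuants are large -/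
theorem large {z : ℂ} (hz : z ∉ interior (closure BPs)) (n : ℕ) (q : ℕ → ℂ)
    (hq : ∀ i, q i = 1 ∨ q i = -1) : 1 ≤ ‖z * K z q n‖ := by
  by_contra hcon
  rw [not_le] at hcon
  apply hz
  rw [mem_interior]
  refine ⟨{w | ‖w * K w q n‖ < 1}, fun w hw => open_pull hq n (disc_sub hw), ?_, hcon⟩
  exact isOpen_lt (continuous_norm.comp (continuous_id.mul (K_differentiable q n).continuous))
    continuous_const

theorem closure_sub : closure BPs ⊆ periodicPart := by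
  apply closure_mono
  intro w hw
  exact BP_mem hw.2

end

end Pool.Agent.FZR
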